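import Mathlib

set_option autoImplicit false

/-!
# Iterating `σ(n) - 1` (MP_43e291_nt): basic facts
-/

namespace Pool.Agent.SGI

open Finset

/-- the map `m ↦ σ(m) - 1` -/
def ff (m : ℕ) : ℕ := ArithmeticFunction.sigma 1 m - 1

lemma sigma_ge {n : ℕ} (hn : 2 ≤ n) : n + 1 ≤ ArithmeticFunction.sigma 1 n := by
  rw [ArithmeticFunction.sigma_one_apply]
  have hsub : ({1, n} : Finset ℕ) ⊆ n.divisors := by
    intro d hd
    rw [Finset.mem_insert, Finset.mem_singleton] at hd
    rw [Nat.mem_divisors]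
    rcases hd with rfl | rfl
    · exact ⟨one_dvd _, by omega⟩
    · exact ⟨dvd_rfl, by omega⟩
  calc n + 1 = ∑ d ∈ ({1, n} : Finset ℕ), d := by
        rw [Finset.sum_pair (by omega)]; ring
    _ ≤ ∑ d ∈ n.divisors, d := Finset.sum_le_sum_of_subset hsub

lemma le_ff {n : ℕ} (hn : 2 ≤ n) : n ≤ ff n := by
  have := sigma_ge hn
  unfold ff
  omega

lemma sigma_prime {p : ℕ} (hp : p.Prime) : ArithmeticFunction.sigma 1 p = p + 1 := by
  rw [ArithmeticFunction.sigma_one_apply, hp.sum_divisors]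

lemma ff_prime {p : ℕ} (hp : p.Prime) : ff p = p := by
  unfold ff
  rw [sigma_prime hp]
  omega

lemma iterate_prime {p : ℕ} (hp : p.Prime) (k : ℕ) : ff^[k] p = p :=
  Function.iterate_fixed (ff_prime hp) k

/-- a prime reached from a composite number is reached in one step from a composite number -/
lemma reached (k : ℕ) : ∀ n : ℕ, 2 ≤ n → ¬ n.Prime → (ff^[k] n).Prime →
    ∃ n' : ℕ, 2 ≤ n' ∧ ¬ n'.Prime ∧ ArithmeticFunction.sigma 1 n' = ff^[k] n + 1 := by
  induction k with
  | zero =>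
    intro n _ h2 h3
    exact absurd h3 h2
  | succ k ih =>
    intro n hn h2 h3
    rw [Function.iterate_succ_apply] at h3 ⊢
    by_cases hp : (ff n).Prime
    · refine ⟨n, hn, h2, ?_⟩
      rw [iterate_prime hp]
      have := sigma_ge hn
      unfold ff
      omega
    · exact ih (ff n) (hn.trans (le_ff hn)) hp h3

end Pool.Agent.SGI
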