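import Mathlib
import Pool.Agent.PnMn.GeneralSieve
import Pool.Agent.PnMn.SieveCor

set_option autoImplicit false

/-!
# The average of `z^ω(p+1)` over primes `p`
-/

namespace Pool.Agent.SGI

open Finset Pool.Agent.PnMn Pool.Agent.PnMn.SieveCor

lemma expand (Q : Finset ℕ) (z : ℝ) (n : ℕ) :
    ∏ l ∈ Q, (if l ∣ n then z else 1) =
      ∑ T ∈ Q.powerset, (∏ _l ∈ T, (1 - z)) * (∏ _l ∈ Q \ T, z) *
        (if ∀ l ∈ T, ¬ l ∣ n then 1 else 0) := by
  have h1 : ∀ l ∈ Q, (if l ∣ n then z else 1) = (if l ∣ n then (0 : ℝ) else 1 - z) + z := by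
    intro l _
    split_ifs <;> ring
  rw [Finset.prod_congr rfl h1, Finset.prod_add]
  apply Finset.sum_congr rfl
  intro T _
  by_cases h : ∀ l ∈ T, ¬ l ∣ n
  · rw [if_pos h, mul_one]
    congr 1
    exact Finset.prod_congr rfl fun l hl => if_neg (h l hl)
  · rw [if_neg h, mul_zero]
    push Not at h
    obtain ⟨l, hl, hln⟩ := h
    rw [Finset.prod_eq_zero (f := fun l => if l ∣ n then (0 : ℝ) else 1 - z) hl (if_pos hln),
      zero_mul]

/-- residue classes -/
noncomputable def BS (T : Finset ℕ) (p : ℕ) : Finset (ZMod p) :=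
  {0} ∪ (if p ∈ T then {-1} else ∅)

lemma BS_card (T : Finset ℕ) (p : ℕ) (hp : p.Prime) :
    (BS T p).card = 1 + (if p ∈ T then 1 else 0) := by
  unfold BS
  by_cases h : p ∈ T
  · rw [if_pos h, if_pos h, Finset.card_union_of_disjoint]
    · simp
    · rw [Finset.disjoint_singleton]
      have := Fact.mk hp
      intro h0
      exact one_ne_zero (neg_eq_zero.1 h0.symm)
  · rw [if_neg h, if_neg h]
    simp

lemma count_T (s : ℕ) (hG : GS s) (H m : ℕ) (hs : 0 < s) (hms : m * s ≤ H)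
    (T : Finset ℕ) :
    (((blk H).filter (fun b => b.Prime ∧ ∀ p ∈ T, ¬ p ∣ b + 1)).card : ℝ) ≤
      3 * 2 ^ H * ∏ p ∈ pr (2 ^ m), (1 - (1 + (if p ∈ T then 1 else 0) : ℝ) / p) := by
  have hmH : m ≤ H := (Nat.le_mul_of_pos_right m hs).trans hms
  refine (GS_use hG (2 ^ m) (pr (2 ^ m)) (BS T)
    (2 ^ H - 1) (2 ^ H)
    (by
      intro p hp
      have := mem_pr.1 hp
      exact ⟨this.2, this.1.1, this.1.2⟩)
    (by
      intro p hp
      rw [BS_card T p (mem_pr.1 hp).2]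
      split_ifs <;> simp)
    (Nat.one_le_two_pow)
    (by
      rw [← pow_mul]
      exact Nat.pow_le_pow_right (by norm_num) hms)
    ((blk H).filter (fun b => b.Prime ∧ ∀ p ∈ T, ¬ p ∣ b + 1))
    (by rw [← blk_eq]; exact Finset.filter_subset _ _) (by
    intro b hb
    rw [Finset.mem_filter] at hb
    intro p hp hmem
    obtain ⟨⟨hp3, hple⟩, hpp⟩ := mem_pr.1 hp
    unfold BS at hmem
    rcases Finset.mem_union.1 hmem with h | h
    · rw [Finset.mem_singleton] at h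
      have hd : p ∣ b := (ZMod.natCast_eq_zero_iff b p).1 h
      have he := (Nat.prime_dvd_prime_iff_eq hpp hb.2.1).1 hd
      have h2 : p ≤ 2 ^ H := hple.trans (Nat.pow_le_pow_right (by norm_num) hmH)
      have h3 : 2 ^ H ≤ b := (Finset.mem_Ico.1 hb.1).1
      have h4 : b = 2 ^ H := by omega
      have h5 : (2 ^ H).Prime := h4 ▸ hb.2.1
      have h6 : H = 1 := by
        by_contra hne
        exact Nat.Prime.not_prime_pow' hne h5
      rw [h6] at h4
      omega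
    · by_cases hpT : p ∈ T
      · rw [if_pos hpT, Finset.mem_singleton] at h
        apply hb.2.2 p hpT
        rw [← ZMod.natCast_eq_zero_iff]
        push_cast
        rw [h]; ring
      · rw [if_neg hpT] at h
        simp at h)).trans ?_
  push_cast
  apply le_of_eq
  congr 1
  refine Finset.prod_congr rfl fun p hp => ?_
  rw [BS_card T p (mem_pr.1 hp).2]
  split_ifs <;> norm_num

lemma zpow_le_prod (z : ℝ) (h0 : 0 ≤ z) (h1 : z ≤ 1) (Q : Finset ℕ) (hQ : ∀ p ∈ Q, p.Prime) (n : ℕ)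
    (hn : n ≠ 0) : z ^ n.primeFactors.card ≤ ∏ l ∈ Q, (if l ∣ n then z else 1) := by
  rw [← Finset.prod_filter, Finset.prod_const]
  apply pow_le_pow_of_le_one h0 h1
  apply Finset.card_le_card
  intro p hp
  rw [Finset.mem_filter] at hp
  exact Nat.mem_primeFactors.2 ⟨hQ p hp.1, hp.2, hn⟩

lemma sum_z_le (s : ℕ) (hG : GS s) (z : ℝ) (h0 : 0 ≤ z) (h1 : z ≤ 1) (H m : ℕ) (hs : 0 < s)
    (hms : m * s ≤ H) :
    ∑ b ∈ (blk H).filter Nat.Prime, z ^ (b + 1).primeFactors.card ≤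
      3 * 2 ^ H * ∏ p ∈ pr (2 ^ m), (1 - (2 - z) / (p : ℝ)) := by
  set Q := pr (2 ^ m) with hQ
  have h1z : 0 ≤ 1 - z := by linarith
  calc ∑ b ∈ (blk H).filter Nat.Prime, z ^ (b + 1).primeFactors.card
      ≤ ∑ b ∈ (blk H).filter Nat.Prime,
          ∑ T ∈ Q.powerset, (∏ _l ∈ T, (1 - z)) * (∏ _l ∈ Q \ T, z) *
            (if ∀ p ∈ T, ¬ p ∣ b + 1 then 1 else 0) := by
        apply Finset.sum_le_sum
        intro b _
        rw [← expand]
        exact zpow_le_prod z h0 h1 Q (fun p hp => (mem_pr.1 hp).2) _ (by omega)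
    _ = ∑ T ∈ Q.powerset, (∏ _l ∈ T, (1 - z)) * (∏ _l ∈ Q \ T, z) *
          (((blk H).filter (fun b => b.Prime ∧ ∀ p ∈ T, ¬ p ∣ b + 1)).card : ℝ) := by
        rw [Finset.sum_comm]
        apply Finset.sum_congr rfl
        intro T _
        rw [← Finset.mul_sum]
        congr 1
        rw [← Finset.sum_filter, Finset.filter_filter]
        simp
    _ ≤ ∑ T ∈ Q.powerset, (∏ _l ∈ T, (1 - z)) * (∏ _l ∈ Q \ T, z) *
          (3 * 2 ^ H * ∏ p ∈ Q, (1 - (1 + (if p ∈ T then 1 else 0) : ℝ) / p)) := by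
        apply Finset.sum_le_sum
        intro T _
        apply mul_le_mul_of_nonneg_left (count_T s hG H m hs hms T)
        exact mul_nonneg (Finset.prod_nonneg fun _ _ => h1z) (Finset.prod_nonneg fun _ _ => h0)
    _ = 3 * 2 ^ H * ∑ T ∈ Q.powerset, (∏ l ∈ T, (1 - z) * (1 - 2 / (l : ℝ))) *
          (∏ l ∈ Q \ T, z * (1 - 1 / (l : ℝ))) := by
        rw [Finset.mul_sum]
        apply Finset.sum_congr rfl
        intro T hT
        rw [Finset.mem_powerset] at hT
        rw [Finset.prod_mul_distrib, Finset.prod_mul_distrib]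
        have e : ∏ p ∈ Q, (1 - (1 + (if p ∈ T then 1 else 0) : ℝ) / p) =
            (∏ l ∈ T, (1 - 2 / (l : ℝ))) * ∏ l ∈ Q \ T, (1 - 1 / (l : ℝ)) := by
          rw [← Finset.prod_sdiff hT, mul_comm]
          congr 1
          · refine Finset.prod_congr rfl fun p hp => ?_
            rw [if_pos hp]; norm_num
          · refine Finset.prod_congr rfl fun p hp => ?_
            rw [if_neg (Finset.mem_sdiff.1 hp).2]; norm_num
        rw [e]
        ring
    _ = 3 * 2 ^ H * ∏ p ∈ Q, (1 - (2 - z) / (p : ℝ)) := by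
        rw [← Finset.prod_add]
        congr 1
        refine Finset.prod_congr rfl fun p _ => ?_
        ring

lemma prod_rpow_le (z : ℝ) (h1 : z ≤ 1) (Q : Finset ℕ) (hQ : ∀ p ∈ Q, 3 ≤ p) (h0 : 0 ≤ z) :
    ∏ p ∈ Q, (1 - (2 - z) / (p : ℝ)) ≤ (∏ p ∈ Q, (1 - 1 / (p : ℝ))) ^ (2 - z) := by
  rw [← Real.finsetProd_rpow]
  · apply Finset.prod_le_prod
    · intro p hp
      have h3 : (3 : ℝ) ≤ p := by exact_mod_cast hQ p hp
      have : (2 - z) / (p : ℝ) ≤ 1 := by
        rw [div_le_one (by linarith)]; linarith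
      linarith
    · intro p hp
      have h3 : (3 : ℝ) ≤ p := by exact_mod_cast hQ p hp
      have h4 : 1 / (p : ℝ) ≤ 1 := by
        rw [div_le_one (by linarith)]; linarith
      have := one_add_mul_self_le_rpow_one_add (s := -(1 / (p : ℝ))) (by linarith) (p := 2 - z)
        (by linarith)
      calc 1 - (2 - z) / (p : ℝ) = 1 + (2 - z) * -(1 / (p : ℝ)) := by ring
        _ ≤ (1 + -(1 / (p : ℝ))) ^ (2 - z) := this
        _ = _ := by rw [← sub_eq_add_neg]
  · intro p hp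
    have h3 : (3 : ℝ) ≤ p := by exact_mod_cast hQ p hp
    have h4 : 1 / (p : ℝ) ≤ 1 := by
      rw [div_le_one (by linarith)]; linarith
    linarith

/-- `∑_{p ∈ [2^H, 2^(H+1))} z^ω(p+1) ≤ C 2^H / H^(2-z)` -/
lemma aver (z : ℝ) (h0 : 0 ≤ z) (h1 : z ≤ 1) : ∃ C : ℝ, 0 < C ∧ ∀ H : ℕ, 1 ≤ H →
    ∑ b ∈ (blk H).filter Nat.Prime, z ^ (b + 1).primeFactors.card ≤
      C * 2 ^ H * (H : ℝ) ^ (-(2 - z)) := by
  obtain ⟨s, hs, hG⟩ := generalSieve
  have hs1 : (1 : ℝ) ≤ s := by exact_mod_cast hs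
  have hexp : (0 : ℝ) ≤ 2 - z := by linarith
  refine ⟨3 * (6 * (s : ℝ)) ^ (2 - z), by positivity, fun H hH => ?_⟩
  have hHr : (1 : ℝ) ≤ H := by exact_mod_cast hH
  by_cases hm : H < s
  · have ha : ∑ b ∈ (blk H).filter Nat.Prime, z ^ (b + 1).primeFactors.card ≤ 2 ^ H := by
      calc _ ≤ ∑ b ∈ (blk H).filter Nat.Prime, (1 : ℝ) :=
            Finset.sum_le_sum (fun b _ => pow_le_one₀ h0 h1)
        _ = (((blk H).filter Nat.Prime).card : ℝ) := by simp
        _ ≤ ((blk H).card : ℝ) := by exact_mod_cast Finset.card_le_card (Finset.filter_subset _ _)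
        _ = 2 ^ H := by rw [blk_card]; push_cast; rfl
    refine ha.trans ?_
    have hHs : (H : ℝ) ≤ s := by exact_mod_cast hm.le
    have hb : (H : ℝ) ^ (2 - z) ≤ (6 * (s : ℝ)) ^ (2 - z) :=
      Real.rpow_le_rpow (by linarith) (by linarith) hexp
    rw [Real.rpow_neg (by linarith), ← div_eq_mul_inv, le_div_iff₀ (by positivity)]
    have hc : 0 ≤ (6 * (s : ℝ)) ^ (2 - z) := by positivity
    calc (2 : ℝ) ^ H * (H : ℝ) ^ (2 - z) ≤ 2 ^ H * (6 * (s : ℝ)) ^ (2 - z) := by gcongr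
      _ ≤ 3 * (6 * (s : ℝ)) ^ (2 - z) * 2 ^ H := by nlinarith [pow_pos (show (0:ℝ) < 2 by norm_num) H]
  · push Not at hm
    set m := H / s with hmdef
    have hm1 : 1 ≤ m := (Nat.one_le_div_iff hs).2 hm
    have hms : m * s ≤ H := Nat.div_mul_le_self H s
    have hHm : H < s * (m + 1) := by
      have := Nat.lt_mul_div_succ H hs
      simpa [hmdef] using this
    have hmr : (1 : ℝ) ≤ m := by exact_mod_cast hm1
    have hHm' : (H : ℝ) ≤ 2 * s * m := by
      have h1 : (H : ℝ) < s * (m + 1) := by exact_mod_cast hHm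
      nlinarith
    have hA := sum_z_le s hG z h0 h1 H m hs hms
    have hB := prod_rpow_le z h1 (pr (2 ^ m)) (fun p hp => (mem_pr.1 hp).1.1) h0
    have hV := V_pow m hm1
    have hV0 : 0 ≤ ∏ p ∈ pr (2 ^ m), (1 - 1 / (p : ℝ)) :=
      Finset.prod_nonneg (fun p hp => (one_sub_pos (mem_pr.1 hp).2.two_le).le)
    have hVH : ∏ p ∈ pr (2 ^ m), (1 - 1 / (p : ℝ)) ≤ 6 * s * (H : ℝ)⁻¹ := by
      refine hV.trans ?_
      rw [← div_eq_mul_inv, div_le_div_iff₀ (by linarith) (by linarith)]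
      nlinarith
    have hC : (∏ p ∈ pr (2 ^ m), (1 - 1 / (p : ℝ))) ^ (2 - z) ≤
        (6 * (s : ℝ)) ^ (2 - z) * (H : ℝ) ^ (-(2 - z)) := by
      calc _ ≤ (6 * s * (H : ℝ)⁻¹) ^ (2 - z) := Real.rpow_le_rpow hV0 hVH hexp
        _ = (6 * (s : ℝ)) ^ (2 - z) * (H : ℝ) ^ (-(2 - z)) := by
            rw [Real.mul_rpow (by positivity) (by positivity), Real.inv_rpow (by linarith),
              Real.rpow_neg (by linarith)]
    calc _ ≤ 3 * 2 ^ H * ∏ p ∈ pr (2 ^ m), (1 - (2 - z) / (p : ℝ)) := hA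
      _ ≤ 3 * 2 ^ H * ((6 * (s : ℝ)) ^ (2 - z) * (H : ℝ) ^ (-(2 - z))) := by
          gcongr
          exact hB.trans hC
      _ = _ := by ring

/-- `∑_p z^ω(p+1)/p` converges for `z < 1`. -/
lemma sum_prime_le (z : ℝ) (h0 : 0 ≤ z) (h1 : z < 1) : ∃ C : ℝ, 0 < C ∧ ∀ N : ℕ,
    ∑ p ∈ (Finset.Icc 1 N).filter Nat.Prime, z ^ (p + 1).primeFactors.card / p ≤ C := by
  obtain ⟨C, hC, h⟩ := aver z h0 h1.le
  have hsum : Summable (fun H : ℕ => (H : ℝ) ^ (-(2 - z))) :=
    Real.summable_nat_rpow.2 (by linarith)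
  refine ⟨C * ∑' H : ℕ, (H : ℝ) ^ (-(2 - z)) + 1, ?_, fun N => ?_⟩
  · have : 0 ≤ ∑' H : ℕ, (H : ℝ) ^ (-(2 - z)) := tsum_nonneg fun H => by positivity
    positivity
  have hmaps : ∀ p ∈ (Finset.Icc 1 N).filter Nat.Prime, Nat.log 2 p ∈ Finset.Icc 1 N := by
    intro p hp
    rw [Finset.mem_filter, Finset.mem_Icc] at hp
    rw [Finset.mem_Icc]
    exact ⟨Nat.log_pos (by norm_num) hp.2.two_le, (Nat.log_le_self 2 p).trans hp.1.2⟩
  have hnn : ∀ p : ℕ, 0 ≤ z ^ (p + 1).primeFactors.card / (p : ℝ) := fun p => by positivity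
  calc ∑ p ∈ (Finset.Icc 1 N).filter Nat.Prime, z ^ (p + 1).primeFactors.card / p
      = ∑ H ∈ Finset.Icc 1 N, ∑ p ∈ ((Finset.Icc 1 N).filter Nat.Prime).filter
          (fun p => Nat.log 2 p = H), z ^ (p + 1).primeFactors.card / (p : ℝ) :=
        (Finset.sum_fiberwise_of_maps_to hmaps _).symm
    _ ≤ ∑ H ∈ Finset.Icc 1 N, ∑ p ∈ (blk H).filter Nat.Prime,
          z ^ (p + 1).primeFactors.card / (p : ℝ) := by
        refine Finset.sum_le_sum fun H _ => ?_
        refine Finset.sum_le_sum_of_subset_of_nonneg ?_ fun p _ _ => hnn p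
        intro p hp
        rw [Finset.mem_filter, Finset.mem_filter] at hp
        obtain ⟨⟨_, hpp⟩, rfl⟩ := hp
        rw [Finset.mem_filter]
        refine ⟨?_, hpp⟩
        unfold blk
        rw [Finset.mem_Ico]
        exact ⟨Nat.pow_log_le_self 2 hpp.ne_zero, Nat.lt_pow_succ_log_self (by norm_num) p⟩
    _ ≤ ∑ H ∈ Finset.Icc 1 N, C * (H : ℝ) ^ (-(2 - z)) := by
        refine Finset.sum_le_sum fun H hH => ?_
        rw [Finset.mem_Icc] at hH
        calc ∑ p ∈ (blk H).filter Nat.Prime, z ^ (p + 1).primeFactors.card / (p : ℝ)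
            ≤ ∑ p ∈ (blk H).filter Nat.Prime, z ^ (p + 1).primeFactors.card / (2 : ℝ) ^ H := by
              refine Finset.sum_le_sum fun p hp => ?_
              rw [Finset.mem_filter] at hp
              unfold blk at hp
              rw [Finset.mem_Ico] at hp
              have : (2 : ℝ) ^ H ≤ p := by exact_mod_cast hp.1.1
              gcongr
          _ = (∑ p ∈ (blk H).filter Nat.Prime, z ^ (p + 1).primeFactors.card) / (2 : ℝ) ^ H := by
              rw [Finset.sum_div]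
          _ ≤ (C * 2 ^ H * (H : ℝ) ^ (-(2 - z))) / (2 : ℝ) ^ H := by
              gcongr
              exact h H hH.1
          _ = C * (H : ℝ) ^ (-(2 - z)) := by field_simp
    _ = C * ∑ H ∈ Finset.Icc 1 N, (H : ℝ) ^ (-(2 - z)) := by rw [Finset.mul_sum]
    _ ≤ C * ∑' H : ℕ, (H : ℝ) ^ (-(2 - z)) := by
        gcongr
        exact hsum.sum_le_tsum _ fun H _ => by positivity
    _ ≤ _ := by linarith

end Pool.Agent.SGI
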