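import Mathlib
import Pool.Agent.SGI.Aver
import Pool.Agent.SGI.Basic
import Pool.Agent.PnMn.Rankin

set_option autoImplicit false

/-!
# The sum of `z^Ω(σ(m)) / m`
-/

namespace Pool.Agent.SGI

open Finset Pool.Agent.PnMn

/-- `z^Ω(σ(m)) / m` -/
noncomputable def gs (z : ℝ) (m : ℕ) : ℝ :=
  z ^ (ArithmeticFunction.cardFactors (ArithmeticFunction.sigma 1 m)) * (m : ℝ)⁻¹

lemma sigma_ne_zero {m : ℕ} (hm : m ≠ 0) : ArithmeticFunction.sigma 1 m ≠ 0 := by
  rw [ArithmeticFunction.sigma_one_apply]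
  have h1 : (1 : ℕ) ∈ m.divisors := Nat.mem_divisors.2 ⟨one_dvd _, hm⟩
  have h2 : (1 : ℕ) ≤ ∑ d ∈ m.divisors, d :=
    Finset.single_le_sum (f := fun d : ℕ => d) (fun _ _ => Nat.zero_le _) h1
  omega

lemma gs_nonneg {z : ℝ} (h0 : 0 ≤ z) (m : ℕ) : 0 ≤ gs z m := by
  unfold gs; positivity

lemma gs_zero (z : ℝ) : gs z 0 = 0 := by simp [gs]

lemma gs_one (z : ℝ) : gs z 1 = 1 := by simp [gs]

lemma gs_mul (z : ℝ) {m n : ℕ} (h : Nat.Coprime m n) : gs z (m * n) = gs z m * gs z n := by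
  rcases Nat.eq_zero_or_pos m with rfl | hm
  · simp [gs_zero]
  rcases Nat.eq_zero_or_pos n with rfl | hn
  · simp [gs_zero]
  unfold gs
  rw [(ArithmeticFunction.isMultiplicative_sigma (k := 1)).map_mul_of_coprime h,
    ArithmeticFunction.cardFactors_mul (sigma_ne_zero hm.ne') (sigma_ne_zero hn.ne'), pow_add]
  push_cast
  rw [mul_inv]
  ring

lemma gs_le_inv {z : ℝ} (h0 : 0 ≤ z) (h1 : z ≤ 1) (m : ℕ) : gs z m ≤ (m : ℝ)⁻¹ := by
  unfold gs
  have : z ^ (ArithmeticFunction.cardFactors (ArithmeticFunction.sigma 1 m)) ≤ 1 :=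
    pow_le_one₀ h0 h1
  have h2 : (0 : ℝ) ≤ (m : ℝ)⁻¹ := by positivity
  nlinarith

lemma card_primeFactors_le (n : ℕ) : n.primeFactors.card ≤ ArithmeticFunction.cardFactors n := by
  rw [ArithmeticFunction.cardFactors_apply, ← Nat.toFinset_factors]
  exact List.toFinset_card_le _

lemma gs_sum_le (z : ℝ) (h0 : 0 ≤ z) (h1 : z < 1) : ∃ C : ℝ, 0 < C ∧ ∀ N : ℕ,
    ∑ m ∈ Finset.Icc 1 N, gs z m ≤ C := by
  obtain ⟨C, hC, h⟩ := sum_prime_le z h0 h1
  refine ⟨Real.exp (2 * (C + 4)), Real.exp_pos _, fun N => ?_⟩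
  set b : ℕ → ℝ := fun p => z ^ (p + 1).primeFactors.card / p + 2 * (1 / (p : ℝ) ^ 2) with hb
  have hb0 : ∀ p, 0 ≤ b p := fun p => by rw [hb]; positivity
  have hmain := sum_le_euler (gs z) (gs_nonneg h0) (gs_one z) (fun m n hmn => gs_mul z hmn)
    b (fun _ => 1 / 2) (fun p _ => by norm_num) (by
      intro p hp j
      have hp2 : (2 : ℝ) ≤ p := by exact_mod_cast hp.two_le
      have hp0 : (0 : ℝ) < p := by linarith
      rcases Nat.eq_zero_or_pos j with rfl | hj
      · rw [zero_add, pow_one, pow_zero, mul_one, hb]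
        simp only
        unfold gs
        rw [sigma_prime hp]
        have e1 : z ^ (ArithmeticFunction.cardFactors (p + 1)) ≤ z ^ (p + 1).primeFactors.card :=
          pow_le_pow_of_le_one h0 h1.le (card_primeFactors_le _)
        have e2 : (0 : ℝ) ≤ (p : ℝ)⁻¹ := by positivity
        have e3 : (0 : ℝ) ≤ 2 * (1 / (p : ℝ) ^ 2) := by positivity
        rw [div_eq_mul_inv]
        nlinarith
      · obtain ⟨i, rfl⟩ : ∃ i, j = i + 1 := ⟨j - 1, by omega⟩
        refine (gs_le_inv h0 h1.le _).trans ?_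
        have e1 : (((p ^ (i + 1 + 1) : ℕ)) : ℝ)⁻¹ ≤ 2 * (1 / (p : ℝ) ^ 2) * (1 / 2) ^ (i + 1) := by
          have e2 : 2 * (1 / (p : ℝ) ^ 2) * (1 / 2) ^ (i + 1) = 1 / ((p : ℝ) ^ 2 * 2 ^ i) := by
            rw [pow_succ (1 / 2 : ℝ) i, one_div_pow]
            field_simp
          rw [e2, ← one_div]
          apply one_div_le_one_div_of_le (by positivity)
          push_cast
          calc (p : ℝ) ^ 2 * 2 ^ i ≤ (p : ℝ) ^ 2 * (p : ℝ) ^ i := by gcongr
            _ = (p : ℝ) ^ (i + 1 + 1) := by ring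
        refine e1.trans ?_
        rw [hb]
        simp only
        have e4 : (0 : ℝ) ≤ z ^ (p + 1).primeFactors.card / p := by positivity
        gcongr
        linarith) (N + 1) (Finset.Icc 1 N) (by
      intro d hd
      rw [Finset.mem_Icc] at hd
      refine ⟨by omega, fun p _ hpd => ?_⟩
      have := Nat.le_of_dvd (by omega) hpd
      omega)
  refine hmain.trans ?_
  have hprod : ∏ p ∈ (N + 1).primesBelow, (1 + b p / (1 - 1 / 2)) ≤
      ∏ p ∈ (N + 1).primesBelow, Real.exp (2 * b p) := by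
    refine Finset.prod_le_prod (fun p _ => ?_) (fun p _ => ?_)
    · have := hb0 p
      have : 0 ≤ b p / (1 - 1 / 2) := div_nonneg this (by norm_num)
      linarith
    · have := Real.add_one_le_exp (2 * b p)
      have e : b p / (1 - 1 / 2) = 2 * b p := by ring
      rw [e]
      linarith
  refine hprod.trans ?_
  rw [← Real.exp_sum]
  apply Real.exp_le_exp.2
  rw [← Finset.mul_sum]
  have h5 : ∑ p ∈ (N + 1).primesBelow, b p ≤ C + 4 := by
    rw [hb, Finset.sum_add_distrib, ← Finset.mul_sum]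
    have h6 := sum_inv_sq_le (N + 1).primesBelow
    have h7 : ∑ p ∈ (N + 1).primesBelow, z ^ (p + 1).primeFactors.card / (p : ℝ) ≤ C := by
      refine le_trans (le_of_eq ?_) (h N)
      refine Finset.sum_congr ?_ fun _ _ => rfl
      ext p
      simp only [Nat.mem_primesBelow, Finset.mem_filter, Finset.mem_Icc]
      constructor
      · rintro ⟨h1, h2⟩; exact ⟨⟨h2.one_le, by omega⟩, h2⟩
      · rintro ⟨⟨h1, h2⟩, h3⟩; exact ⟨by omega, h3⟩
    linarith
  linarith

end Pool.Agent.SGI
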