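import Mathlib
import Pool.Agent.PnMn.GeneralSieve
import Pool.Agent.PnMn.SieveCor

set_option autoImplicit false

/-!
# Primes `q` with `a (q+1) - 1` prime
-/

namespace Pool.Agent.SGI

open Finset Pool.Agent.PnMn Pool.Agent.PnMn.SieveCor

/-- residue classes for the pair sieve -/
noncomputable def BP (a : ℕ) (p : ℕ) : Finset (ZMod p) :=
  {0} ∪ (if ¬ p ∣ a then {-(((a : ZMod p) - 1) * (a : ZMod p)⁻¹)} else ∅)

lemma BP_card_le (a p : ℕ) : 1 ≤ (BP a p).card ∧ (BP a p).card ≤ 2 := by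
  unfold BP
  constructor
  · apply Finset.card_pos.2
    exact ⟨0, by simp⟩
  · refine (Finset.card_union_le _ _).trans ?_
    split_ifs <;> simp

lemma BP_card_ge (a p : ℕ) (ha : 1 ≤ a) (hp : p.Prime) (h : ¬ p ∣ a * (a - 1)) :
    (BP a p).card = 2 := by
  have := Fact.mk hp
  have h1 : ¬ p ∣ a := fun h1 => h (h1.mul_right _)
  have h2 : ¬ p ∣ a - 1 := fun h1 => h (h1.mul_left _)
  have ha0 : (a : ZMod p) ≠ 0 := fun h0 => h1 ((ZMod.natCast_eq_zero_iff a p).1 h0)
  have ha1 : (a : ZMod p) - 1 ≠ 0 := by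
    intro h0
    apply h2
    rw [← ZMod.natCast_eq_zero_iff, Nat.cast_sub ha, Nat.cast_one]
    exact h0
  unfold BP
  rw [if_pos h1, Finset.card_union_of_disjoint]
  · simp
  · rw [Finset.disjoint_singleton]
    intro h0
    exact mul_ne_zero ha1 (inv_ne_zero ha0) (neg_eq_zero.1 h0.symm)

lemma pair_count (s : ℕ) (hG : GS s) (y Y a : ℕ) (hy : 2 ≤ y) (ha : 2 ≤ a) (hY : y ^ s ≤ Y) :
    (((Finset.Icc 1 Y).filter (fun q => q.Prime ∧ y < q ∧ (a * (q + 1) - 1).Prime)).card : ℝ) ≤
      12 * Y * tq (a * (a - 1)) / (Real.log y) ^ 2 := by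
  have hylog : 0 < Real.log y := Real.log_pos (by exact_mod_cast hy)
  have hY1 : 1 ≤ Y := le_trans (Nat.one_le_pow _ _ (by omega)) hY
  have haa : 1 ≤ a * (a - 1) := Nat.mul_pos (by omega) (by omega)
  have h1 := GS_use hG y (pr y) (BP a) 0 Y
    (by
      intro p hp
      have := mem_pr.1 hp
      exact ⟨this.2, this.1.1, this.1.2⟩)
    (fun p _ => BP_card_le a p) hY1 hY
    ((Finset.Icc 1 Y).filter (fun q => q.Prime ∧ y < q ∧ (a * (q + 1) - 1).Prime))
    (by
      intro q hq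
      rw [Finset.mem_filter, Finset.mem_Icc] at hq
      rw [Finset.mem_Ioc]
      omega)
    (by
      intro q hq p hp hmem
      rw [Finset.mem_filter, Finset.mem_Icc] at hq
      obtain ⟨_, hqp, hyq, hR⟩ := hq
      obtain ⟨⟨hp3, hple⟩, hpp⟩ := mem_pr.1 hp
      unfold BP at hmem
      rcases Finset.mem_union.1 hmem with h | h
      · rw [Finset.mem_singleton] at h
        have hd : p ∣ q := (ZMod.natCast_eq_zero_iff q p).1 h
        have he := (Nat.prime_dvd_prime_iff_eq hpp hqp).1 hd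
        omega
      · by_cases hpa : p ∣ a
        · rw [if_neg (by simpa using hpa)] at h
          simp at h
        · rw [if_pos hpa, Finset.mem_singleton] at h
          have := Fact.mk hpp
          have ha0 : (a : ZMod p) ≠ 0 := fun h0 => hpa ((ZMod.natCast_eq_zero_iff a p).1 h0)
          have hge : 1 ≤ a * (q + 1) := Nat.mul_pos (by omega) (by omega)
          have hd : p ∣ a * (q + 1) - 1 := by
            rw [← ZMod.natCast_eq_zero_iff, Nat.cast_sub hge]
            push_cast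
            rw [h]
            field_simp
            ring
          have he := (Nat.prime_dvd_prime_iff_eq hpp hR).1 hd
          have : 2 * (q + 1) ≤ a * (q + 1) := Nat.mul_le_mul_right _ ha
          omega)
  refine h1.trans ?_
  have hV := V_le y hy
  have hV0 : 0 ≤ ∏ p ∈ pr y, (1 - 1 / (p : ℝ)) :=
    Finset.prod_nonneg (fun p hp => (one_sub_pos (mem_pr.1 hp).2.two_le).le)
  have hF := filter_prod_le (a * (a - 1)) y haa
  have hF0 : 0 ≤ ∏ p ∈ (pr y).filter (fun p => ¬ p ∣ a * (a - 1)), (1 - 1 / (p : ℝ)) :=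
    Finset.prod_nonneg (fun p hp =>
      (one_sub_pos (mem_pr.1 (Finset.mem_filter.1 hp).1).2.two_le).le)
  have htq := tq_one_le (a * (a - 1)) haa
  have h2 : ∏ p ∈ pr y, (1 - ((BP a p).card : ℝ) / p) ≤
      (∏ p ∈ pr y, (1 - 1 / (p : ℝ))) *
        ∏ p ∈ (pr y).filter (fun p => ¬ p ∣ a * (a - 1)), (1 - 1 / (p : ℝ)) := by
    rw [Finset.prod_filter, ← Finset.prod_mul_distrib]
    apply Finset.prod_le_prod
    · intro p hp
      have h3 : (3 : ℝ) ≤ p := by exact_mod_cast (mem_pr.1 hp).1.1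
      have h4 : ((BP a p).card : ℝ) ≤ 2 := by exact_mod_cast (BP_card_le a p).2
      have : ((BP a p).card : ℝ) / p ≤ 1 := by
        rw [div_le_one (by linarith)]; linarith
      linarith
    · intro p hp
      have hpp := (mem_pr.1 hp).2
      have h3 : (3 : ℝ) ≤ p := by exact_mod_cast (mem_pr.1 hp).1.1
      by_cases h : ¬ p ∣ a * (a - 1)
      · rw [if_pos h, BP_card_ge a p (by omega) hpp h]
        have : (1 - 1 / (p : ℝ)) * (1 - 1 / (p : ℝ)) = 1 - 2 / p + (1 / p) ^ 2 := by ring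
        rw [this]
        have : (0 : ℝ) ≤ (1 / (p : ℝ)) ^ 2 := by positivity
        push_cast
        linarith
      · rw [if_neg h, mul_one]
        have h4 : (1 : ℝ) ≤ ((BP a p).card : ℝ) := by exact_mod_cast (BP_card_le a p).1
        have : 1 / (p : ℝ) ≤ ((BP a p).card : ℝ) / p := by gcongr
        linarith
  calc 3 * (Y : ℝ) * ∏ p ∈ pr y, (1 - ((BP a p).card : ℝ) / p)
      ≤ 3 * (Y : ℝ) * ((∏ p ∈ pr y, (1 - 1 / (p : ℝ))) *
        ∏ p ∈ (pr y).filter (fun p => ¬ p ∣ a * (a - 1)), (1 - 1 / (p : ℝ))) := by gcongr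
    _ ≤ 3 * (Y : ℝ) * ((2 / Real.log y) * (tq (a * (a - 1)) * (2 / Real.log y))) := by
        gcongr
        exact hF.trans (by gcongr)
    _ = 12 * Y * tq (a * (a - 1)) / (Real.log y) ^ 2 := by
        field_simp
        ring

end Pool.Agent.SGI
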