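import Mathlib
import Pool.Agent.PnMn.SumInv
import Pool.Agent.PnMn.Rankin

set_option autoImplicit false

/-!
# Integers with many prime factors
-/

namespace Pool.Agent.SGI

open Finset Pool.Agent.PnMn

/-- `(1-u)⁻¹ ≤ exp (u + u²/(1-u))` -/
lemma inv_one_sub_le {u : ℝ} (h1 : u < 1) :
    (1 - u)⁻¹ ≤ Real.exp (u + u ^ 2 / (1 - u)) := by
  have h2 : 0 < 1 - u := by linarith
  have e : (1 - u)⁻¹ = (u + u ^ 2 / (1 - u)) + 1 := by
    field_simp
    ring
  rw [e]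
  exact Real.add_one_le_exp _

/-- Upper bound of the product of `(1 - 3/(2p))⁻¹` over `p ≤ X`. -/
lemma prod_three_half : ∃ C : ℝ, 0 < C ∧ ∀ X : ℕ, 3 ≤ X →
    ∏ p ∈ (X + 1).primesBelow, (1 - (3 / 2 : ℝ) * (p : ℝ)⁻¹)⁻¹ ≤ C * (Real.log X) ^ 2 := by
  obtain ⟨c, hc⟩ := sumInvPrimes
  refine ⟨Real.exp (3 / 2 * c + 18), Real.exp_pos _, fun X hX => ?_⟩
  have hX3 : (3 : ℝ) ≤ X := by exact_mod_cast hX
  have hL1 : 1 < Real.log X := by
    rw [Real.lt_log_iff_exp_lt (by linarith)]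
    exact lt_of_lt_of_le Real.exp_one_lt_d9 (by linarith)
  have hL0 : 0 < Real.log X := by linarith
  have hterm : ∀ p ∈ (X + 1).primesBelow, (1 - (3 / 2 : ℝ) * (p : ℝ)⁻¹)⁻¹ ≤
      Real.exp (3 / 2 * (1 / (p : ℝ)) + 9 * (1 / (p : ℝ) ^ 2)) := by
    intro p hp
    have hpp := Nat.prime_of_mem_primesBelow hp
    have h2 : (2 : ℝ) ≤ p := by exact_mod_cast hpp.two_le
    have hp0 : (0 : ℝ) < p := by linarith
    have hinv : (p : ℝ)⁻¹ ≤ 1 / 2 := by
      rw [← one_div]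
      exact one_div_le_one_div_of_le (by norm_num) h2
    have hinv0 : 0 < (p : ℝ)⁻¹ := inv_pos.2 hp0
    have hu1 : (3 / 2 : ℝ) * (p : ℝ)⁻¹ ≤ 3 / 4 := by linarith
    refine (inv_one_sub_le (by linarith)).trans ?_
    apply Real.exp_le_exp.2
    have h3 : (1 / 4 : ℝ) ≤ 1 - 3 / 2 * (p : ℝ)⁻¹ := by linarith
    have h4 : ((3 / 2 : ℝ) * (p : ℝ)⁻¹) ^ 2 / (1 - 3 / 2 * (p : ℝ)⁻¹) ≤
        ((3 / 2 : ℝ) * (p : ℝ)⁻¹) ^ 2 / (1 / 4) := by
      gcongr
    have h5 : ((3 / 2 : ℝ) * (p : ℝ)⁻¹) ^ 2 / (1 / 4) = 9 * (1 / (p : ℝ) ^ 2) := by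
      field_simp
      ring
    rw [h5] at h4
    rw [one_div]
    linarith
  have hpos : ∀ p ∈ (X + 1).primesBelow, 0 ≤ (1 - (3 / 2 : ℝ) * (p : ℝ)⁻¹)⁻¹ := by
    intro p hp
    have hpp := Nat.prime_of_mem_primesBelow hp
    have h2 : (2 : ℝ) ≤ p := by exact_mod_cast hpp.two_le
    have hinv : (p : ℝ)⁻¹ ≤ 1 / 2 := by
      rw [← one_div]
      exact one_div_le_one_div_of_le (by norm_num) h2
    exact inv_nonneg.2 (by linarith)
  refine (Finset.prod_le_prod hpos hterm).trans ?_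
  rw [← Real.exp_sum, Finset.sum_add_distrib, ← Finset.mul_sum, ← Finset.mul_sum]
  have h6 : ∑ p ∈ (X + 1).primesBelow, 1 / (p : ℝ) ≤ Real.log (Real.log X) + c := by
    refine le_trans (le_of_eq ?_) (hc X (by omega))
    refine Finset.sum_congr ?_ fun _ _ => rfl
    ext p
    simp only [Nat.mem_primesBelow, Finset.mem_filter, Finset.mem_Icc]
    constructor
    · rintro ⟨h1, h2⟩; exact ⟨⟨h2.one_le, by omega⟩, h2⟩
    · rintro ⟨⟨h1, h2⟩, h3⟩; exact ⟨by omega, h3⟩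
  have h7 := sum_inv_sq_le (X + 1).primesBelow
  have h8 : Real.exp (3 / 2 * c + 18) * (Real.log X) ^ 2 =
      Real.exp (3 / 2 * c + 18 + 2 * Real.log (Real.log X)) := by
    have h9 : Real.exp (3 / 2 * c + 18 + 2 * Real.log (Real.log X)) =
        Real.exp (3 / 2 * c + 18) * (Real.exp (Real.log (Real.log X))) ^ 2 := by
      rw [← Real.exp_nat_mul, ← Real.exp_add]
      push_cast
      ring_nf
    rw [h9, Real.exp_log hL0]
  rw [h8]
  apply Real.exp_le_exp.2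
  have h9 : 0 ≤ Real.log (Real.log X) := Real.log_nonneg hL1.le
  linarith

/-- the completely multiplicative function `(3/2)^Ω(n) / n` -/
noncomputable def gh : ℕ →* ℝ where
  toFun n := (3 / 2 : ℝ) ^ (ArithmeticFunction.cardFactors n) * (n : ℝ)⁻¹
  map_one' := by simp
  map_mul' := by
    intro m n
    rcases Nat.eq_zero_or_pos m with rfl | hm
    · simp
    rcases Nat.eq_zero_or_pos n with rfl | hn
    · simp
    rw [ArithmeticFunction.cardFactors_mul hm.ne' hn.ne', pow_add]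
    push_cast
    rw [mul_inv]
    ring

lemma gh_apply (n : ℕ) : gh n = (3 / 2 : ℝ) ^ (ArithmeticFunction.cardFactors n) * (n : ℝ)⁻¹ := rfl

lemma gh_prime {p : ℕ} (hp : p.Prime) : gh p = (3 / 2 : ℝ) * (p : ℝ)⁻¹ := by
  rw [gh_apply, ArithmeticFunction.cardFactors_apply_prime hp, pow_one]

lemma sum_gh_le (X : ℕ) :
    ∑ d ∈ Finset.Icc 1 X, gh d ≤ ∏ p ∈ (X + 1).primesBelow, (1 - (3 / 2 : ℝ) * (p : ℝ)⁻¹)⁻¹ := by
  have h : ∀ {p : ℕ}, p.Prime → ‖gh p‖ < 1 := by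
    intro p hp
    rw [gh_prime hp]
    have h2 : (2 : ℝ) ≤ p := by exact_mod_cast hp.two_le
    have hinv : (p : ℝ)⁻¹ ≤ 1 / 2 := by
      rw [← one_div]
      exact one_div_le_one_div_of_le (by norm_num) h2
    have hinv0 : 0 < (p : ℝ)⁻¹ := inv_pos.2 (by linarith)
    rw [Real.norm_of_nonneg (by positivity)]
    linarith
  obtain ⟨h1, h2⟩ := EulerProduct.summable_and_hasSum_smoothNumbers_prod_primesBelow_geometric h (X + 1)
  have e : ∏ p ∈ (X + 1).primesBelow, (1 - gh p)⁻¹ =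
      ∏ p ∈ (X + 1).primesBelow, (1 - (3 / 2 : ℝ) * (p : ℝ)⁻¹)⁻¹ :=
    Finset.prod_congr rfl fun p hp => by rw [gh_prime (Nat.prime_of_mem_primesBelow hp)]
  rw [← e]
  have hmem : ∀ d ∈ Finset.Icc 1 X, d ∈ (X + 1).smoothNumbers := by
    intro d hd
    rw [Finset.mem_Icc] at hd
    exact Nat.mem_smoothNumbers_of_lt (by omega) (by omega)
  have h3 : ∑ d ∈ (Finset.Icc 1 X).subtype (fun x => x ∈ (X + 1).smoothNumbers), gh d =
      ∑ d ∈ Finset.Icc 1 X, gh d := Finset.sum_subtype_of_mem (fun d => gh d) hmem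
  rw [← h3]
  exact sum_le_hasSum _ (fun i _ => by rw [gh_apply]; positivity) h2

/-- a number with at least `K` prime factors has a divisor with exactly `K` -/
lemma exists_dvd_card {n K : ℕ} (hn : n ≠ 0) (hK : K ≤ ArithmeticFunction.cardFactors n) :
    ∃ d : ℕ, d ∣ n ∧ ArithmeticFunction.cardFactors d = K := by
  refine ⟨(n.primeFactorsList.take K).prod, ?_, ?_⟩
  · have h1 := (List.take_sublist K n.primeFactorsList).prod_dvd_prod
    rwa [Nat.prod_primeFactorsList hn] at h1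
  · have hprime : ∀ p ∈ n.primeFactorsList.take K, p.Prime := fun p hp =>
      Nat.prime_of_mem_primeFactorsList (List.mem_of_mem_take hp)
    rw [ArithmeticFunction.cardFactors_apply]
    have hperm := Nat.primeFactorsList_unique (n := (n.primeFactorsList.take K).prod) rfl hprime
    rw [← hperm.length_eq, List.length_take]
    rw [ArithmeticFunction.cardFactors_apply] at hK
    omega

/-- Tail of `Ω`. -/
lemma tail_card (X K : ℕ) :
    (((Finset.Icc 1 X).filter (fun n => K ≤ ArithmeticFunction.cardFactors n)).card : ℝ) ≤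
      X * (2 / 3 : ℝ) ^ K * ∏ p ∈ (X + 1).primesBelow, (1 - (3 / 2 : ℝ) * (p : ℝ)⁻¹)⁻¹ := by
  classical
  set D := (Finset.Icc 1 X).filter (fun d => ArithmeticFunction.cardFactors d = K) with hD
  have hsub : (Finset.Icc 1 X).filter (fun n => K ≤ ArithmeticFunction.cardFactors n) ⊆
      D.biUnion (fun d => (Finset.Ioc 0 X).filter (fun n => d ∣ n)) := by
    intro n hn
    rw [Finset.mem_filter, Finset.mem_Icc] at hn
    obtain ⟨d, hd, hdK⟩ := exists_dvd_card (by omega) hn.2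
    rw [Finset.mem_biUnion]
    have hdpos : 0 < d := Nat.pos_of_dvd_of_pos hd (by omega)
    refine ⟨d, ?_, ?_⟩
    · rw [hD, Finset.mem_filter, Finset.mem_Icc]
      exact ⟨⟨hdpos, (Nat.le_of_dvd (by omega) hd).trans hn.1.2⟩, hdK⟩
    · rw [Finset.mem_filter, Finset.mem_Ioc]
      exact ⟨⟨by omega, hn.1.2⟩, hd⟩
  calc (((Finset.Icc 1 X).filter (fun n => K ≤ ArithmeticFunction.cardFactors n)).card : ℝ)
      ≤ ((D.biUnion (fun d => (Finset.Ioc 0 X).filter (fun n => d ∣ n))).card : ℝ) := by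
        exact_mod_cast Finset.card_le_card hsub
    _ ≤ ∑ d ∈ D, (((Finset.Ioc 0 X).filter (fun n => d ∣ n)).card : ℝ) := by
        exact_mod_cast Finset.card_biUnion_le
    _ ≤ ∑ d ∈ D, X * (2 / 3 : ℝ) ^ K * gh d := by
        refine Finset.sum_le_sum fun d hd => ?_
        rw [hD, Finset.mem_filter, Finset.mem_Icc] at hd
        rw [Nat.Ioc_filter_dvd_card_eq_div, gh_apply, hd.2]
        have h1 : ((X / d : ℕ) : ℝ) ≤ (X : ℝ) / d := Nat.cast_div_le
        have h2 : (X : ℝ) * (2 / 3 : ℝ) ^ K * ((3 / 2 : ℝ) ^ K * (d : ℝ)⁻¹) = X / d := by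
          have : (2 / 3 : ℝ) ^ K * (3 / 2 : ℝ) ^ K = 1 := by
            rw [← mul_pow]; norm_num
          calc (X : ℝ) * (2 / 3 : ℝ) ^ K * ((3 / 2 : ℝ) ^ K * (d : ℝ)⁻¹)
              = X * ((2 / 3 : ℝ) ^ K * (3 / 2 : ℝ) ^ K) * (d : ℝ)⁻¹ := by ring
            _ = X / d := by rw [this, mul_one, div_eq_mul_inv]
        rw [h2]; exact h1
    _ = X * (2 / 3 : ℝ) ^ K * ∑ d ∈ D, gh d := by rw [Finset.mul_sum]
    _ ≤ X * (2 / 3 : ℝ) ^ K * ∑ d ∈ Finset.Icc 1 X, gh d := by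
        have : ∑ d ∈ D, gh d ≤ ∑ d ∈ Finset.Icc 1 X, gh d :=
          Finset.sum_le_sum_of_subset_of_nonneg (Finset.filter_subset _ _)
            (fun i _ _ => by rw [gh_apply]; positivity)
        gcongr
    _ ≤ _ := by
        have := sum_gh_le X
        gcongr

/-- Tail of `Ω`, with `K ≥ 9 log log X`. -/
lemma tail_le : ∃ C : ℝ, 0 < C ∧ ∀ X K : ℕ, 3 ≤ X → 10 * Real.log (Real.log X) ≤ K →
    (((Finset.Icc 1 X).filter (fun n => K ≤ ArithmeticFunction.cardFactors n)).card : ℝ) ≤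
      C * X / (Real.log X) ^ 2 := by
  obtain ⟨C, hC, h⟩ := prod_three_half
  refine ⟨C, hC, fun X K hX hK => ?_⟩
  have hX3 : (3 : ℝ) ≤ X := by exact_mod_cast hX
  have hL1 : 1 < Real.log X := by
    rw [Real.lt_log_iff_exp_lt (by linarith)]
    exact lt_of_lt_of_le Real.exp_one_lt_d9 (by linarith)
  have hL0 : 0 < Real.log X := by linarith
  have h1 : (2 / 3 : ℝ) ^ K ≤ 1 / (Real.log X) ^ 4 := by
    have h2 : (3 / 2 : ℝ) ^ K = Real.exp (K * Real.log (3 / 2)) := by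
      rw [Real.exp_nat_mul, Real.exp_log (by norm_num)]
    have h3 : (Real.log X) ^ 4 = Real.exp ((4 : ℕ) * Real.log (Real.log X)) := by
      rw [Real.exp_nat_mul, Real.exp_log hL0]
    have h4 : (2 / 5 : ℝ) ≤ Real.log (3 / 2) := by
      have := Real.le_log_one_add_of_nonneg (x := 1 / 2) (by norm_num)
      norm_num at this
      linarith
    have h5 : 0 ≤ Real.log (Real.log X) := Real.log_nonneg hL1.le
    have h6 : (Real.log X) ^ 4 ≤ (3 / 2 : ℝ) ^ K := by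
      rw [h2, h3]
      apply Real.exp_le_exp.2
      push_cast
      nlinarith
    have h7 : (2 / 3 : ℝ) ^ K = 1 / (3 / 2 : ℝ) ^ K := by
      rw [one_div, ← inv_pow]; norm_num
    rw [h7]
    exact one_div_le_one_div_of_le (by positivity) h6
  calc _ ≤ X * (2 / 3 : ℝ) ^ K * ∏ p ∈ (X + 1).primesBelow, (1 - (3 / 2 : ℝ) * (p : ℝ)⁻¹)⁻¹ :=
        tail_card X K
    _ ≤ X * (1 / (Real.log X) ^ 4) * (C * (Real.log X) ^ 2) := by
        have h3 : 0 ≤ ∏ p ∈ (X + 1).primesBelow, (1 - (3 / 2 : ℝ) * (p : ℝ)⁻¹)⁻¹ :=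
          le_trans (Finset.sum_nonneg fun d _ => by rw [gh_apply]; positivity) (sum_gh_le X)
        have h4 := h X hX
        gcongr
    _ = C * X / (Real.log X) ^ 2 := by
        field_simp

end Pool.Agent.SGI
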