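import Mathlib
import Pool.Agent.PnMn.SumInv
import Pool.Agent.PnMn.Rankin
import Pool.Agent.PnMn.SieveCor
import Pool.Agent.SGI.Tail

set_option autoImplicit false

/-!
# An upper bound for `n/φ(n)`
-/

namespace Pool.Agent.SGI

open Finset Pool.Agent.PnMn Pool.Agent.PnMn.SieveCor

lemma two_pow_card_le {n : ℕ} (hn : n ≠ 0) : 2 ^ n.primeFactors.card ≤ n := by
  calc 2 ^ n.primeFactors.card = ∏ _p ∈ n.primeFactors, 2 := by rw [Finset.prod_const]
    _ ≤ ∏ p ∈ n.primeFactors, p :=
        Finset.prod_le_prod' fun p hp => (Nat.prime_of_mem_primeFactors hp).two_le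
    _ ≤ n := Nat.le_of_dvd (Nat.pos_of_ne_zero hn) (Nat.prod_primeFactors_dvd n)

lemma one_lt_log {X : ℕ} (hX : 3 ≤ X) : 1 < Real.log X := by
  have hX3 : (3 : ℝ) ≤ X := by exact_mod_cast hX
  rw [Real.lt_log_iff_exp_lt (by linarith)]
  exact lt_of_lt_of_le Real.exp_one_lt_d9 (by linarith)

/-- `n/φ(n) ≤ C log log X`-type bound for `n ≤ X²` -/
lemma tq_le : ∃ C : ℝ, 0 < C ∧ ∀ X n : ℕ, 3 ≤ X → 1 ≤ n → n ≤ X ^ 2 →
    tq n ≤ C * (1 + Real.log (Real.log X)) := by
  obtain ⟨c, hc⟩ := sumInvPrimes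
  refine ⟨2 * Real.exp (c + 7), by positivity, fun X n hX hn hnX => ?_⟩
  have hL1 := one_lt_log hX
  set L := Real.log X with hL
  have hL0 : 0 < L := by linarith
  have hlL : 0 ≤ Real.log L := Real.log_nonneg hL1.le
  set y : ℕ := ⌊L⌋₊ + 2 with hy
  have hyL : L < y := by
    rw [hy]; push_cast
    have := Nat.lt_floor_add_one L
    linarith
  have hyL' : (y : ℝ) ≤ 3 * L := by
    rw [hy]; push_cast
    have := Nat.floor_le hL0.le
    linarith
  have hy2 : 2 ≤ y := by omega
  have hy2r : (2 : ℝ) ≤ y := by exact_mod_cast hy2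
  -- the sum over the prime divisors
  have hsplit : ∑ p ∈ n.primeFactors, 1 / (p : ℝ) ≤ Real.log (Real.log y) + c + 3 := by
    rw [← Finset.sum_filter_add_sum_filter_not n.primeFactors (fun p => p ≤ y)]
    have h1 : ∑ p ∈ n.primeFactors.filter (fun p => p ≤ y), 1 / (p : ℝ) ≤
        Real.log (Real.log y) + c := by
      refine le_trans (Finset.sum_le_sum_of_subset_of_nonneg ?_ fun p _ _ => by positivity) (hc y hy2)
      intro p hp
      rw [Finset.mem_filter] at hp
      have hpp := Nat.prime_of_mem_primeFactors hp.1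
      rw [Finset.mem_filter, Finset.mem_Icc]
      exact ⟨⟨hpp.one_le, hp.2⟩, hpp⟩
    have h2 : ∑ p ∈ n.primeFactors.filter (fun p => ¬ p ≤ y), 1 / (p : ℝ) ≤ 3 := by
      calc ∑ p ∈ n.primeFactors.filter (fun p => ¬ p ≤ y), 1 / (p : ℝ)
          ≤ ∑ p ∈ n.primeFactors.filter (fun p => ¬ p ≤ y), 1 / L := by
            refine Finset.sum_le_sum fun p hp => ?_
            rw [Finset.mem_filter] at hp
            apply one_div_le_one_div_of_le hL0
            have : (y : ℝ) ≤ p := by exact_mod_cast (not_le.1 hp.2).le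
            linarith
        _ ≤ ∑ p ∈ n.primeFactors, 1 / L :=
            Finset.sum_le_sum_of_subset_of_nonneg (Finset.filter_subset _ _)
              fun p _ _ => by positivity
        _ = n.primeFactors.card * (1 / L) := by rw [Finset.sum_const, nsmul_eq_mul]
        _ ≤ (3 * L) * (1 / L) := by
            gcongr
            have h3 : ((2 ^ n.primeFactors.card : ℕ) : ℝ) ≤ (X : ℝ) ^ 2 := by
              exact_mod_cast (two_pow_card_le (by omega)).trans hnX
            have h4 : Real.log ((2 ^ n.primeFactors.card : ℕ) : ℝ) ≤ Real.log ((X : ℝ) ^ 2) :=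
              Real.log_le_log (by positivity) h3
            push_cast at h4
            rw [Real.log_pow, Real.log_pow, ← hL] at h4
            have h5 := Real.log_two_gt_d9
            push_cast at h4
            have h6 : (0 : ℝ) ≤ n.primeFactors.card := by positivity
            nlinarith
        _ = 3 := by field_simp
    linarith
  have hsq := sum_inv_sq_le n.primeFactors
  -- the product
  have htq : tq n = ∏ p ∈ n.primeFactors, (1 - 1 / (p : ℝ))⁻¹ := by
    have h1 := tq_mul n hn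
    rw [Finset.prod_inv_distrib]
    exact eq_inv_of_mul_eq_one_left h1
  rw [htq]
  have hterm : ∀ p ∈ n.primeFactors, (1 - 1 / (p : ℝ))⁻¹ ≤
      Real.exp (1 / (p : ℝ) + 2 * (1 / (p : ℝ) ^ 2)) := by
    intro p hp
    have hpp := Nat.prime_of_mem_primeFactors hp
    have h2 : (2 : ℝ) ≤ p := by exact_mod_cast hpp.two_le
    have hinv : 1 / (p : ℝ) ≤ 1 / 2 := one_div_le_one_div_of_le (by norm_num) h2
    refine (inv_one_sub_le (by linarith)).trans ?_
    apply Real.exp_le_exp.2
    have h3 : (1 / 2 : ℝ) ≤ 1 - 1 / (p : ℝ) := by linarith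
    have h4 : (1 / (p : ℝ)) ^ 2 / (1 - 1 / (p : ℝ)) ≤ (1 / (p : ℝ)) ^ 2 / (1 / 2) := by gcongr
    have h5 : (1 / (p : ℝ)) ^ 2 / (1 / 2) = 2 * (1 / (p : ℝ) ^ 2) := by
      rw [one_div_pow]; ring
    rw [h5] at h4
    linarith
  have hnn : ∀ p ∈ n.primeFactors, 0 ≤ (1 - 1 / (p : ℝ))⁻¹ := fun p hp =>
    inv_nonneg.2 (one_sub_pos (Nat.prime_of_mem_primeFactors hp).two_le).le
  have hly : 0 < Real.log y := Real.log_pos (by linarith)
  calc ∏ p ∈ n.primeFactors, (1 - 1 / (p : ℝ))⁻¹
      ≤ ∏ p ∈ n.primeFactors, Real.exp (1 / (p : ℝ) + 2 * (1 / (p : ℝ) ^ 2)) :=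
        Finset.prod_le_prod hnn hterm
    _ = Real.exp (∑ p ∈ n.primeFactors, 1 / (p : ℝ) + 2 * ∑ p ∈ n.primeFactors, 1 / (p : ℝ) ^ 2) := by
        rw [← Real.exp_sum, Finset.sum_add_distrib, ← Finset.mul_sum]
    _ ≤ Real.exp (Real.log (Real.log y) + (c + 7)) := by
        apply Real.exp_le_exp.2
        linarith
    _ = Real.log y * Real.exp (c + 7) := by rw [Real.exp_add, Real.exp_log hly]
    _ ≤ (2 * (1 + Real.log L)) * Real.exp (c + 7) := by
        gcongr
        have h6 : Real.log y ≤ Real.log (3 * L) := Real.log_le_log (by linarith) hyL'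
        rw [Real.log_mul (by norm_num) hL0.ne'] at h6
        have h7 : Real.log 3 < 2 := by
          rw [Real.log_lt_iff_lt_exp (by norm_num)]
          have := Real.add_one_le_exp (1 : ℝ)
          have h8 : Real.exp 2 = Real.exp 1 * Real.exp 1 := by rw [← Real.exp_add]; norm_num
          rw [h8]
          nlinarith
        linarith
    _ = _ := by ring

end Pool.Agent.SGI
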