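import Mathlib
import Pool.Agent.SGI.Basic
import Pool.Agent.SGI.Tail
import Pool.Agent.SGI.Euler
import Pool.Agent.SGI.Pair
import Pool.Agent.SGI.Tq

set_option autoImplicit false

/-!
# Primes reached from composite numbers
-/

namespace Pool.Agent.SGI

open Finset Pool.Agent.PnMn Pool.Agent.PnMn.SieveCor

open scoped Classical

lemma exists_big {n : ℕ} (hn : 2 ≤ n) :
    ∃ q : ℕ, q.Prime ∧ q ∣ n ∧ n ≤ q ^ (ArithmeticFunction.cardFactors n) := by
  have hne : n.primeFactors.Nonempty := Nat.nonempty_primeFactors.2 (by omega)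
  set q := n.primeFactors.max' hne with hq
  have hmem := Finset.max'_mem _ hne
  rw [← hq] at hmem
  refine ⟨q, Nat.prime_of_mem_primeFactors hmem, Nat.dvd_of_mem_primeFactors hmem, ?_⟩
  rw [ArithmeticFunction.cardFactors_apply]
  calc n = n.primeFactorsList.prod := (Nat.prod_primeFactorsList (by omega)).symm
    _ ≤ q ^ n.primeFactorsList.length := by
        apply List.prod_le_pow_card
        intro p hp
        apply Finset.le_max'
        exact Nat.mem_primeFactors_iff_mem_primeFactorsList.2 hp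

lemma card_sq_le (X y : ℕ) (hy : 1 ≤ y) :
    (((Finset.Icc 1 X).filter (fun n => ∃ q : ℕ, y < q ∧ q ^ 2 ∣ n)).card : ℝ) ≤ X / y := by
  have hsub : (Finset.Icc 1 X).filter (fun n => ∃ q : ℕ, y < q ∧ q ^ 2 ∣ n) ⊆
      (Finset.Ioc y (X + y)).biUnion (fun q => (Finset.Ioc 0 X).filter (fun n => q ^ 2 ∣ n)) := by
    intro n hn
    rw [Finset.mem_filter, Finset.mem_Icc] at hn
    obtain ⟨⟨h1, h2⟩, q, hq, hqn⟩ := hn
    rw [Finset.mem_biUnion]
    refine ⟨q, ?_, ?_⟩
    · rw [Finset.mem_Ioc]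
      have h3 := Nat.le_of_dvd (by omega) hqn
      have h4 : q ≤ q ^ 2 := Nat.le_self_pow (by norm_num) q
      omega
    · rw [Finset.mem_filter, Finset.mem_Ioc]
      exact ⟨⟨by omega, h2⟩, hqn⟩
  calc _ ≤ (((Finset.Ioc y (X + y)).biUnion
        (fun q => (Finset.Ioc 0 X).filter (fun n => q ^ 2 ∣ n))).card : ℝ) := by
        exact_mod_cast Finset.card_le_card hsub
    _ ≤ ∑ q ∈ Finset.Ioc y (X + y), (((Finset.Ioc 0 X).filter (fun n => q ^ 2 ∣ n)).card : ℝ) := by
        exact_mod_cast Finset.card_biUnion_le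
    _ ≤ ∑ q ∈ Finset.Ioc y (X + y), X * ((q : ℝ) ^ 2)⁻¹ := by
        refine Finset.sum_le_sum fun q _ => ?_
        rw [Nat.Ioc_filter_dvd_card_eq_div]
        have h1 : ((X / q ^ 2 : ℕ) : ℝ) ≤ (X : ℝ) / ((q ^ 2 : ℕ) : ℝ) := Nat.cast_div_le
        push_cast at h1
        rwa [div_eq_mul_inv] at h1
    _ = X * ∑ q ∈ Finset.Ioc y (X + y), ((q : ℝ) ^ 2)⁻¹ := by rw [Finset.mul_sum]
    _ ≤ X * (y : ℝ)⁻¹ := by
        gcongr
        refine (sum_Ioc_inv_sq_le_sub (by omega) (by omega)).trans ?_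
        have : (0 : ℝ) ≤ ((X + y : ℕ) : ℝ)⁻¹ := by positivity
        linarith
    _ = X / y := by rw [div_eq_mul_inv]

/-- the set of pairs -/
lemma card_pairs (s : ℕ) (hG : GS s) (X K y : ℕ) (hX : 3 ≤ X) (hy : 2 ≤ y)
    (z : ℝ) (h0 : 0 < z) (h1 : z < 1) (C₂ C₃ : ℝ) (hC₂ : 0 < C₂)
    (h2 : ∀ n : ℕ, 1 ≤ n → n ≤ X ^ 2 → tq n ≤ C₂ * (1 + Real.log (Real.log X)))
    (h3 : ∀ N : ℕ, ∑ m ∈ Finset.Icc 1 N, gs z m ≤ C₃) :
    (((Finset.Icc 1 X).filter (fun n => ∃ q m : ℕ, q.Prime ∧ y < q ∧ y ^ s ≤ q ∧ 2 ≤ m ∧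
      n = q * m ∧ Nat.Coprime q m ∧ (ArithmeticFunction.sigma 1 n - 1).Prime ∧
      ArithmeticFunction.sigma 1 n ≤ X + 1 ∧
      ArithmeticFunction.cardFactors (ArithmeticFunction.sigma 1 n) < K)).card : ℝ) ≤
      12 * X * (C₂ * (1 + Real.log (Real.log X))) / (Real.log y) ^ 2 * ((z ^ K)⁻¹ * C₃) := by
  have hylog : 0 < Real.log y := Real.log_pos (by exact_mod_cast hy)
  have hL1 := one_lt_log hX
  have hlL : 0 ≤ Real.log (Real.log X) := Real.log_nonneg hL1.le
  set M := (Finset.Icc 2 X).filter (fun m => y ^ s ≤ X / m ∧ ArithmeticFunction.sigma 1 m ≤ X ∧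
    ArithmeticFunction.cardFactors (ArithmeticFunction.sigma 1 m) < K) with hM
  have hsub : (Finset.Icc 1 X).filter (fun n => ∃ q m : ℕ, q.Prime ∧ y < q ∧ y ^ s ≤ q ∧ 2 ≤ m ∧
      n = q * m ∧ Nat.Coprime q m ∧ (ArithmeticFunction.sigma 1 n - 1).Prime ∧
      ArithmeticFunction.sigma 1 n ≤ X + 1 ∧
      ArithmeticFunction.cardFactors (ArithmeticFunction.sigma 1 n) < K) ⊆
      M.biUnion (fun m => ((Finset.Icc 1 (X / m)).filter (fun q => q.Prime ∧ y < q ∧
        (ArithmeticFunction.sigma 1 m * (q + 1) - 1).Prime)).image (fun q => q * m)) := by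
    intro n hn
    rw [Finset.mem_filter, Finset.mem_Icc] at hn
    obtain ⟨⟨hn1, hnX⟩, q, m, hq, hyq, hysq, hm, rfl, hcop, hpr, hsX, hK⟩ := hn
    have hsig : ArithmeticFunction.sigma 1 (q * m) = (q + 1) * ArithmeticFunction.sigma 1 m := by
      rw [(ArithmeticFunction.isMultiplicative_sigma (k := 1)).map_mul_of_coprime hcop,
        sigma_prime hq]
    have hm0 : m ≠ 0 := by omega
    have hqXm : q ≤ X / m := by
      rw [Nat.le_div_iff_mul_le (by omega)]; exact hnX
    have hsm := sigma_ne_zero hm0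
    rw [Finset.mem_biUnion]
    refine ⟨m, ?_, ?_⟩
    · rw [hM, Finset.mem_filter, Finset.mem_Icc]
      refine ⟨⟨hm, ?_⟩, hysq.trans hqXm, ?_, ?_⟩
      · exact (Nat.le_mul_of_pos_left m hq.pos).trans hnX
      · rw [hsig] at hsX
        have h5 : 3 * ArithmeticFunction.sigma 1 m ≤ (q + 1) * ArithmeticFunction.sigma 1 m :=
          Nat.mul_le_mul_right _ (by have := hq.two_le; omega)
        omega
      · rw [hsig, ArithmeticFunction.cardFactors_mul (by omega) hsm] at hK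
        omega
    · rw [Finset.mem_image]
      refine ⟨q, ?_, rfl⟩
      rw [Finset.mem_filter, Finset.mem_Icc]
      refine ⟨⟨hq.one_le, hqXm⟩, hq, hyq, ?_⟩
      rw [hsig, mul_comm] at hpr
      exact hpr
  have hzK : 0 < z ^ K := pow_pos h0 K
  set A := 12 * X * (C₂ * (1 + Real.log (Real.log X))) / (Real.log y) ^ 2 with hA
  have hA0 : 0 ≤ A := by rw [hA]; positivity
  calc _ ≤ ((M.biUnion (fun m => ((Finset.Icc 1 (X / m)).filter (fun q => q.Prime ∧ y < q ∧
        (ArithmeticFunction.sigma 1 m * (q + 1) - 1).Prime)).image (fun q => q * m))).card : ℝ) := by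
        exact_mod_cast Finset.card_le_card hsub
    _ ≤ ∑ m ∈ M, ((((Finset.Icc 1 (X / m)).filter (fun q => q.Prime ∧ y < q ∧
        (ArithmeticFunction.sigma 1 m * (q + 1) - 1).Prime)).image (fun q => q * m)).card : ℝ) := by
        exact_mod_cast Finset.card_biUnion_le
    _ ≤ ∑ m ∈ M, A * ((z ^ K)⁻¹ * gs z m) := by
        refine Finset.sum_le_sum fun m hm => ?_
        rw [hM, Finset.mem_filter, Finset.mem_Icc] at hm
        obtain ⟨⟨hm2, hmX⟩, hYs, hsX, hK⟩ := hm
        have hm0 : (0 : ℝ) < m := by exact_mod_cast (by omega : 0 < m)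
        have hs2 : 2 ≤ ArithmeticFunction.sigma 1 m := by
          have := sigma_ge hm2
          omega
        have h4 := pair_count s hG y (X / m) (ArithmeticFunction.sigma 1 m) hy hs2 hYs
        have h5 := h2 (ArithmeticFunction.sigma 1 m * (ArithmeticFunction.sigma 1 m - 1))
          (Nat.mul_pos (by omega) (by omega)) (by
            rw [sq]
            exact Nat.mul_le_mul hsX ((Nat.sub_le _ _).trans hsX))
        have h5' : 0 ≤ tq (ArithmeticFunction.sigma 1 m * (ArithmeticFunction.sigma 1 m - 1)) := by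
          unfold tq; positivity
        have h6 : ((X / m : ℕ) : ℝ) ≤ (X : ℝ) / m := Nat.cast_div_le
        have h7 : (1 : ℝ) ≤ (z ^ K)⁻¹ *
            z ^ (ArithmeticFunction.cardFactors (ArithmeticFunction.sigma 1 m)) := by
          rw [inv_mul_eq_div, one_le_div hzK]
          exact pow_le_pow_of_le_one h0.le h1.le hK.le
        calc _ ≤ (((Finset.Icc 1 (X / m)).filter (fun q => q.Prime ∧ y < q ∧
              (ArithmeticFunction.sigma 1 m * (q + 1) - 1).Prime)).card : ℝ) := by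
              exact_mod_cast Finset.card_image_le
          _ ≤ _ := h4
          _ ≤ 12 * ((X : ℝ) / m) * (C₂ * (1 + Real.log (Real.log X))) / (Real.log y) ^ 2 := by
              gcongr
          _ = A * (m : ℝ)⁻¹ * 1 := by
              rw [hA]; field_simp
          _ ≤ A * (m : ℝ)⁻¹ * ((z ^ K)⁻¹ *
            z ^ (ArithmeticFunction.cardFactors (ArithmeticFunction.sigma 1 m))) := by
              gcongr
          _ = A * ((z ^ K)⁻¹ * gs z m) := by
              unfold gs; ring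
    _ = A * ((z ^ K)⁻¹ * ∑ m ∈ M, gs z m) := by
        rw [← Finset.mul_sum, ← Finset.mul_sum]
    _ ≤ A * ((z ^ K)⁻¹ * C₃) := by
        have h8 : ∑ m ∈ M, gs z m ≤ ∑ m ∈ Finset.Icc 1 X, gs z m := by
          refine Finset.sum_le_sum_of_subset_of_nonneg ?_ fun m _ _ => gs_nonneg h0.le m
          intro m hm
          rw [hM, Finset.mem_filter, Finset.mem_Icc] at hm
          rw [Finset.mem_Icc]
          omega
        have h9 := h3 X
        gcongr
        exact h8.trans h9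

/-- the primes `p ≤ X` with `p + 1 = σ(n)`, `n` composite -/
noncomputable def RP (X : ℕ) : Finset ℕ :=
  (Finset.Icc 1 X).filter (fun p => p.Prime ∧ ∃ n : ℕ, 2 ≤ n ∧ ¬ n.Prime ∧
    ArithmeticFunction.sigma 1 n = p + 1)

lemma mem_RP {X p : ℕ} : p ∈ RP X ↔ (1 ≤ p ∧ p ≤ X) ∧ p.Prime ∧ ∃ n : ℕ, 2 ≤ n ∧ ¬ n.Prime ∧
    ArithmeticFunction.sigma 1 n = p + 1 := by
  unfold RP
  rw [Finset.mem_filter, Finset.mem_Icc]

lemma RP_card_le_self (X : ℕ) : (RP X).card ≤ X := by
  have : (RP X).card ≤ (Finset.Icc 1 X).card := by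
    unfold RP
    exact Finset.card_le_card (Finset.filter_subset _ _)
  rwa [Nat.card_Icc, Nat.add_sub_cancel] at this

/-- the combinatorial decomposition -/
lemma RP_card_le (s : ℕ) (hs : 0 < s) (hG : GS s) (X K y : ℕ) (hX : 3 ≤ X) (hy : 2 ≤ y)
    (Y₀ : ℕ)
    (hbig : ∀ n q : ℕ, Y₀ < n → n ≤ q ^ K → y ^ s < q)
    (z : ℝ) (h0 : 0 < z) (h1 : z < 1) (C₂ C₃ : ℝ) (hC₂ : 0 < C₂)
    (h2 : ∀ n : ℕ, 1 ≤ n → n ≤ X ^ 2 → tq n ≤ C₂ * (1 + Real.log (Real.log X)))
    (h3 : ∀ N : ℕ, ∑ m ∈ Finset.Icc 1 N, gs z m ≤ C₃) :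
    ((RP X).card : ℝ) ≤
      (((Finset.Icc 1 (X + 1)).filter (fun n => K ≤ ArithmeticFunction.cardFactors n)).card : ℝ) +
      ((((Finset.Icc 1 X).filter (fun n => K ≤ ArithmeticFunction.cardFactors n)).card : ℝ) +
      (Y₀ + (X / y +
      12 * X * (C₂ * (1 + Real.log (Real.log X))) / (Real.log y) ^ 2 * ((z ^ K)⁻¹ * C₃)))) := by
  set G₀ := (Finset.Icc 1 (X + 1)).filter (fun n => K ≤ ArithmeticFunction.cardFactors n) with hG₀
  set G₁ := (Finset.Icc 1 X).filter (fun n => K ≤ ArithmeticFunction.cardFactors n) with hG₁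
  set G₂ := Finset.Icc 1 Y₀ with hG₂
  set G₃ := (Finset.Icc 1 X).filter (fun n => ∃ q : ℕ, y < q ∧ q ^ 2 ∣ n) with hG₃
  set G₄ := (Finset.Icc 1 X).filter (fun n => ∃ q m : ℕ, q.Prime ∧ y < q ∧ y ^ s ≤ q ∧ 2 ≤ m ∧
      n = q * m ∧ Nat.Coprime q m ∧ (ArithmeticFunction.sigma 1 n - 1).Prime ∧
      ArithmeticFunction.sigma 1 n ≤ X + 1 ∧
      ArithmeticFunction.cardFactors (ArithmeticFunction.sigma 1 n) < K) with hG₄
  have hsub : RP X ⊆ G₀.image (fun N => N - 1) ∪
      (G₁ ∪ (G₂ ∪ (G₃ ∪ G₄))).image (fun n => ArithmeticFunction.sigma 1 n - 1) := by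
    intro p hp
    unfold RP at hp
    rw [Finset.mem_filter, Finset.mem_Icc] at hp
    obtain ⟨⟨hp1, hpX⟩, hpp, n, hn2, hnp, hsig⟩ := hp
    have hnle : n ≤ X := by
      have := sigma_ge hn2
      omega
    rw [Finset.mem_union, Finset.mem_image, Finset.mem_image]
    by_cases hK : K ≤ ArithmeticFunction.cardFactors (p + 1)
    · left
      refine ⟨p + 1, ?_, by omega⟩
      rw [hG₀, Finset.mem_filter, Finset.mem_Icc]
      exact ⟨⟨by omega, by omega⟩, hK⟩
    · right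
      refine ⟨n, ?_, by omega⟩
      rw [Finset.mem_union, Finset.mem_union, Finset.mem_union]
      by_cases hK1 : K ≤ ArithmeticFunction.cardFactors n
      · left
        rw [hG₁, Finset.mem_filter, Finset.mem_Icc]
        exact ⟨⟨by omega, hnle⟩, hK1⟩
      right
      by_cases hnY : n ≤ Y₀
      · left
        rw [hG₂, Finset.mem_Icc]
        exact ⟨by omega, hnY⟩
      right
      obtain ⟨q, hq, hqn, hnq⟩ := exists_big hn2
      have hnq' : n ≤ q ^ K := hnq.trans (Nat.pow_le_pow_right hq.pos (by omega))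
      have hyq := hbig n q (by omega) hnq'
      have hyq' : y < q := lt_of_le_of_lt (Nat.le_self_pow hs.ne' y) hyq
      by_cases hqq : q ^ 2 ∣ n
      · left
        rw [hG₃, Finset.mem_filter, Finset.mem_Icc]
        exact ⟨⟨by omega, hnle⟩, q, hyq', hqq⟩
      right
      obtain ⟨m, rfl⟩ := hqn
      rw [hG₄, Finset.mem_filter, Finset.mem_Icc]
      refine ⟨⟨by omega, hnle⟩, q, m, hq, hyq', hyq.le, ?_, rfl, ?_, ?_, by omega, ?_⟩
      · by_contra hm
        have : m = 0 ∨ m = 1 := by omega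
        rcases this with rfl | rfl
        · simp at hn2
        · rw [mul_one] at hnp
          exact hnp hq
      · rw [Nat.Prime.coprime_iff_not_dvd hq]
        intro hqm
        apply hqq
        rw [sq]
        exact Nat.mul_dvd_mul_left q hqm
      · rw [hsig, Nat.add_sub_cancel]
        exact hpp
      · rw [hsig]
        omega
  have hc : (RP X).card ≤ G₀.card + (G₁.card + (G₂.card + (G₃.card + G₄.card))) := by
    calc (RP X).card ≤ _ := Finset.card_le_card hsub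
      _ ≤ (G₀.image (fun N => N - 1)).card +
          ((G₁ ∪ (G₂ ∪ (G₃ ∪ G₄))).image (fun n => ArithmeticFunction.sigma 1 n - 1)).card :=
          Finset.card_union_le _ _
      _ ≤ G₀.card + (G₁ ∪ (G₂ ∪ (G₃ ∪ G₄))).card :=
          Nat.add_le_add Finset.card_image_le Finset.card_image_le
      _ ≤ _ := by
          have a1 := Finset.card_union_le G₁ (G₂ ∪ (G₃ ∪ G₄))
          have a2 := Finset.card_union_le G₂ (G₃ ∪ G₄)
          have a3 := Finset.card_union_le G₃ G₄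
          omega
  have hc' : ((RP X).card : ℝ) ≤ (G₀.card : ℝ) + ((G₁.card : ℝ) + ((G₂.card : ℝ) +
      ((G₃.card : ℝ) + (G₄.card : ℝ)))) := by exact_mod_cast hc
  have b2 : (G₂.card : ℝ) = Y₀ := by rw [hG₂, Nat.card_Icc]; simp
  have b3 := card_sq_le X y (by omega)
  rw [← hG₃] at b3
  have b4 := card_pairs s hG X K y hX hy z h0 h1 C₂ C₃ hC₂ h2 h3
  rw [← hG₄] at b4
  rw [b2] at hc'
  linarith

end Pool.Agent.SGI
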