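import Mathlib
import Pool.Agent.SGI.Main

set_option autoImplicit false

/-!
# Primes reached from composite numbers: the final estimate
-/

namespace Pool.Agent.SGI

open Finset Pool.Agent.PnMn Pool.Agent.PnMn.SieveCor

lemma aux_exp_half : Real.exp (1 / 2) ≤ 27 / 16 := by
  have e5 : Real.exp (1 / 2) ^ 2 = Real.exp 1 := by
    rw [← Real.exp_nat_mul]; congr 1; norm_num
  have e6 := Real.exp_one_lt_d9
  have e7 := Real.exp_pos (1 / 2)
  nlinarith

lemma aux_log {L : ℝ} (hL : 1 ≤ L) : (1 + Real.log L) ^ 2 ≤ 27 * Real.sqrt L := by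
  have hL0 : 0 < L := by linarith
  have hl0 : 0 ≤ Real.log L := Real.log_nonneg hL
  have e1 : (1 + Real.log L) / 4 ≤ Real.exp ((1 + Real.log L) / 4) := by
    have := Real.add_one_le_exp ((1 + Real.log L) / 4); linarith
  have e2 : Real.exp ((1 + Real.log L) / 4) ^ 2 = Real.exp (1 / 2) * Real.sqrt L := by
    have e3 : Real.sqrt L = Real.exp (Real.log L / 2) := by
      rw [Real.sqrt_eq_iff_mul_self_eq hL0.le (Real.exp_pos _).le, ← Real.exp_add, add_halves,
        Real.exp_log hL0]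
    rw [e3, ← Real.exp_nat_mul, ← Real.exp_add]
    congr 1; push_cast; ring
  have e8 : ((1 + Real.log L) / 4) ^ 2 ≤ Real.exp ((1 + Real.log L) / 4) ^ 2 := by
    have : 0 ≤ (1 + Real.log L) / 4 := by linarith
    gcongr
  rw [e2] at e8
  have e9 : Real.exp (1 / 2) * Real.sqrt L ≤ 27 / 16 * Real.sqrt L :=
    mul_le_mul_of_nonneg_right aux_exp_half (Real.sqrt_nonneg _)
  have e10 : ((1 + Real.log L) / 4) ^ 2 = (1 + Real.log L) ^ 2 / 16 := by ring
  rw [e10] at e8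
  linarith

lemma aux_cube {L : ℝ} (h48 : 48 ≤ L) : L ^ 2 ≤ Real.exp (L / 2) := by
  have h2 := Real.pow_div_factorial_le_exp (x := L / 2) (by linarith) 3
  have h4 : (L / 2) ^ 3 / (Nat.factorial 3 : ℕ) = L ^ 3 / 48 := by
    norm_num [Nat.factorial]
    ring
  rw [h4] at h2
  have h5 : L ^ 2 ≤ L ^ 3 / 48 := by
    have h6 : L ^ 3 / 48 = L ^ 2 * (L / 48) := by ring
    rw [h6]
    have h7 : 1 ≤ L / 48 := by linarith
    exact le_mul_of_one_le_right (sq_nonneg L) h7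
  linarith

lemma aux_X {x : ℝ} (h3 : 3 ≤ x) : x + 1 ≤ x ^ 2 := by nlinarith

lemma aux_zK {ε l K : ℝ} (hε : 0 < ε) (hK : K ≤ 11 * (1 + l)) :
    -(K * -(ε / 44)) ≤ ε * (1 + l) / 4 := by
  have : ε / 44 * K ≤ ε / 44 * (11 * (1 + l)) := by gcongr
  linarith

/-- everything for `log X ≥ (1200 s)²` -/
lemma RP_large (ε : ℝ) (hε : 0 < ε) : ∃ C L₀ : ℝ, 0 < C ∧ 0 < L₀ ∧ ∀ X : ℕ, 3 ≤ X →
    L₀ ≤ Real.log X → ((RP X).card : ℝ) ≤ C * X / (Real.log X) ^ (2 - ε) := by
  obtain ⟨s, hs, hG⟩ := generalSieve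
  obtain ⟨C₁, hC₁, hT⟩ := tail_le
  obtain ⟨C₂, hC₂, hQ⟩ := tq_le
  set z : ℝ := Real.exp (-(ε / 44)) with hz
  have hz0 : 0 < z := Real.exp_pos _
  have hz1 : z < 1 := by
    rw [hz, Real.exp_lt_one_iff]; linarith
  obtain ⟨C₃, hC₃, hE⟩ := gs_sum_le z hz0.le hz1
  have hs1 : (1 : ℝ) ≤ s := by exact_mod_cast hs
  set D : ℝ := 12 * 64 * 121 * (s : ℝ) ^ 2 * C₂ * C₃ * (6 / ε) ^ 3 * Real.exp ε with hD
  have hD0 : 0 < D := by positivity
  refine ⟨3 * C₁ + 2 + D, (1200 * s) ^ 2, by positivity, by positivity, fun X hX hXL => ?_⟩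
  have hX3 : (3 : ℝ) ≤ X := by exact_mod_cast hX
  have hX0 : (0 : ℝ) < X := by linarith
  set L : ℝ := Real.log X with hL
  have hL1 : 1 < L := one_lt_log hX
  have hL0 : 0 < L := by linarith
  set l : ℝ := Real.log L with hl
  have hl0 : 0 ≤ l := Real.log_nonneg hL1.le
  have hexpl : Real.exp l = L := Real.exp_log hL0
  -- sqrt L
  have hsq0 : 0 ≤ Real.sqrt L := Real.sqrt_nonneg _
  have hsqL : Real.sqrt L * Real.sqrt L = L := Real.mul_self_sqrt hL0.le
  have hsqs : 1200 * s ≤ Real.sqrt L := by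
    apply Real.le_sqrt_of_sq_le hXL
  have h1l : (1 + l) ^ 2 ≤ 27 * Real.sqrt L := aux_log hL1.le
  set K : ℕ := ⌈10 * l⌉₊ + 10 with hK
  have hK1 : 10 * l + 10 ≤ K := by
    rw [hK]; push_cast
    have := Nat.le_ceil (10 * l); linarith
  have hK2 : (K : ℝ) ≤ 11 * (1 + l) := by
    rw [hK]; push_cast
    have := Nat.ceil_lt_add_one (show 0 ≤ 10 * l by linarith); linarith
  have hKpos : (0 : ℝ) < K := by linarith
  set u : ℝ := L / (2 * K * s) with hu
  have hu1 : 2 * l + 1 ≤ u := by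
    rw [hu, le_div_iff₀ (by positivity)]
    calc (2 * l + 1) * (2 * K * s) ≤ (2 * (1 + l)) * (2 * (11 * (1 + l)) * s) := by
          have : 2 * l + 1 ≤ 2 * (1 + l) := by linarith
          gcongr
      _ = 44 * s * (1 + l) ^ 2 := by ring
      _ ≤ 44 * s * (27 * Real.sqrt L) := by gcongr
      _ ≤ (1200 * s) * Real.sqrt L := by
          have h := mul_nonneg (show (0 : ℝ) ≤ s by linarith) hsq0
          linarith
      _ ≤ Real.sqrt L * Real.sqrt L := by gcongr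
      _ = L := hsqL
  have hu1' : 1 ≤ u := by linarith
  have hexpu : 2 < Real.exp u := by
    have := Real.add_one_le_exp u
    have h2 : Real.exp 1 ≤ Real.exp u := Real.exp_le_exp.2 hu1'
    have h3 := Real.exp_one_gt_d9
    linarith
  set y : ℕ := ⌊Real.exp u⌋₊ with hy
  have hyle : (y : ℝ) ≤ Real.exp u := Nat.floor_le (Real.exp_pos _).le
  have hygt : Real.exp u < y + 1 := Nat.lt_floor_add_one _
  have hy2 : 2 ≤ y := Nat.le_floor (by push_cast; linarith)
  have hy2r : (2 : ℝ) ≤ y := by exact_mod_cast hy2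
  have hyhalf : Real.exp u / 2 ≤ y := by linarith
  have hlogy : u / 4 ≤ Real.log y := by
    have h1 : Real.log (Real.exp u / 2) ≤ Real.log y := Real.log_le_log (by positivity) hyhalf
    rw [Real.log_div (Real.exp_pos _).ne' (by norm_num), Real.log_exp] at h1
    have h2 := Real.log_two_lt_d9
    linarith
  -- the cut-off `√X`
  have hsqrtX : Real.sqrt X = Real.exp (L / 2) := by
    rw [Real.sqrt_eq_iff_mul_self_eq hX0.le (Real.exp_pos _).le, ← Real.exp_add]
    rw [add_halves, hL, Real.exp_log hX0]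
  set Y₀ : ℕ := ⌊Real.sqrt X⌋₊ with hY₀
  have hY₀le : (Y₀ : ℝ) ≤ Real.sqrt X := Nat.floor_le (Real.sqrt_nonneg _)
  have hbig : ∀ n q : ℕ, Y₀ < n → n ≤ q ^ K → y ^ s < q := by
    intro n q hn hnq
    by_contra hcon
    push Not at hcon
    have h1 : Real.sqrt X < n := by
      rw [hY₀] at hn
      exact (Nat.floor_lt' (by omega)).1 hn
    have h2 : (n : ℝ) ≤ ((y ^ s) ^ K : ℕ) := by
      exact_mod_cast hnq.trans (Nat.pow_le_pow_left hcon K)
    push_cast at h2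
    have h3 : (((y : ℝ) ^ s) ^ K) ≤ ((Real.exp u) ^ s) ^ K := by gcongr
    have h4 : ((Real.exp u) ^ s) ^ K = Real.exp (L / 2) := by
      rw [← Real.exp_nat_mul, ← Real.exp_nat_mul]
      congr 1
      rw [hu]
      field_simp
    rw [h4, ← hsqrtX] at h3
    linarith
  have hmain := RP_card_le s hs hG X K y hX hy2 Y₀ hbig z hz0 hz1 C₂ C₃ hC₂
    (fun n hn hnX => hQ X n hX hn hnX) hE
  -- the terms
  have hLpow : L ^ (2 - ε) ≤ L ^ 2 := by
    rw [← Real.rpow_natCast L 2]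
    apply Real.rpow_le_rpow_of_exponent_le hL1.le
    push_cast; linarith
  have hLp0 : 0 < L ^ (2 - ε) := Real.rpow_pos_of_pos hL0 _
  have hXL2 : (X : ℝ) / L ^ 2 ≤ X / L ^ (2 - ε) := by gcongr
  have t0 : (((Finset.Icc 1 (X + 1)).filter
      (fun n => K ≤ ArithmeticFunction.cardFactors n)).card : ℝ) ≤ 2 * C₁ * (X / L ^ (2 - ε)) := by
    have h1 : Real.log ((X + 1 : ℕ) : ℝ) ≤ 2 * L := by
      have h2 : ((X + 1 : ℕ) : ℝ) ≤ (X : ℝ) ^ 2 := by push_cast; exact aux_X hX3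
      calc Real.log ((X + 1 : ℕ) : ℝ) ≤ Real.log ((X : ℝ) ^ 2) :=
            Real.log_le_log (by positivity) h2
        _ = 2 * L := by rw [Real.log_pow]; push_cast; rfl
    have h3 : L ≤ Real.log ((X + 1 : ℕ) : ℝ) :=
      Real.log_le_log hX0 (by push_cast; linarith)
    have h4 : Real.log (Real.log ((X + 1 : ℕ) : ℝ)) ≤ l + 1 := by
      calc Real.log (Real.log ((X + 1 : ℕ) : ℝ)) ≤ Real.log (2 * L) :=
            Real.log_le_log (by linarith) h1
        _ = Real.log 2 + l := by rw [Real.log_mul (by norm_num) hL0.ne']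
        _ ≤ l + 1 := by have := Real.log_two_lt_d9; linarith
    refine (hT (X + 1) K (by omega) (by linarith)).trans ?_
    have h5 : L ^ 2 ≤ (Real.log ((X + 1 : ℕ) : ℝ)) ^ 2 := by gcongr
    calc C₁ * ((X + 1 : ℕ) : ℝ) / (Real.log ((X + 1 : ℕ) : ℝ)) ^ 2
        ≤ C₁ * (2 * X) / L ^ 2 := by
          gcongr
          push_cast; linarith
      _ = 2 * C₁ * (X / L ^ 2) := by ring
      _ ≤ _ := by gcongr
  have t1 : (((Finset.Icc 1 X).filter
      (fun n => K ≤ ArithmeticFunction.cardFactors n)).card : ℝ) ≤ C₁ * (X / L ^ (2 - ε)) := by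
    refine (hT X K hX (by linarith)).trans ?_
    calc C₁ * (X : ℝ) / L ^ 2 = C₁ * (X / L ^ 2) := by ring
      _ ≤ _ := by gcongr
  have t2 : (Y₀ : ℝ) ≤ X / L ^ (2 - ε) := by
    refine le_trans (hY₀le.trans ?_) hXL2
    rw [le_div_iff₀ (by positivity)]
    have h1 : L ^ 2 ≤ Real.sqrt X := by
      rw [hsqrtX]
      apply aux_cube
      have h3 : (1200 : ℝ) ≤ Real.sqrt L := by linarith
      have h4 : (1 : ℝ) ≤ Real.sqrt L := by linarith
      calc (48 : ℝ) ≤ 1200 * 1 := by norm_num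
        _ ≤ Real.sqrt L * Real.sqrt L := by gcongr
        _ = L := hsqL
    calc Real.sqrt X * L ^ 2 ≤ Real.sqrt X * Real.sqrt X := by gcongr
      _ = X := Real.mul_self_sqrt hX0.le
  have t3 : (X : ℝ) / y ≤ X / L ^ (2 - ε) := by
    refine le_trans ?_ hXL2
    have h1 : L ^ 2 ≤ y := by
      have h2 : Real.exp (2 * l + 1) ≤ Real.exp u := Real.exp_le_exp.2 hu1
      have h3 : Real.exp (2 * l + 1) = L ^ 2 * Real.exp 1 := by
        rw [Real.exp_add, two_mul, Real.exp_add, hexpl]; ring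
      have h4 := Real.exp_one_gt_d9
      have h5 : 0 < L ^ 2 := by positivity
      rw [h3] at h2
      have h6 : 2 * L ^ 2 ≤ L ^ 2 * Real.exp 1 := by
        rw [mul_comm]; gcongr; linarith
      linarith
    gcongr
  have t4 : 12 * X * (C₂ * (1 + Real.log (Real.log X))) / (Real.log y) ^ 2 * ((z ^ K)⁻¹ * C₃) ≤
      D * (X / L ^ (2 - ε)) := by
    have a1 : (u / 4) ^ 2 ≤ (Real.log y) ^ 2 := by gcongr
    have a2 : (z ^ K)⁻¹ ≤ Real.exp (ε * (1 + l) / 4) := by
      rw [hz, ← Real.exp_nat_mul, ← Real.exp_neg]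
      apply Real.exp_le_exp.2
      exact aux_zK hε hK2
    have a3 : (1 + l) ^ 3 ≤ (6 / ε) ^ 3 * Real.exp (ε * (1 + l) / 2) := by
      have b1 : (1 + l) ≤ (6 / ε) * Real.exp (ε * (1 + l) / 6) := by
        have b2 := Real.add_one_le_exp (ε * (1 + l) / 6)
        have b3 : (6 / ε) * (ε * (1 + l) / 6) = 1 + l := by field_simp
        calc 1 + l = (6 / ε) * (ε * (1 + l) / 6) := b3.symm
          _ ≤ (6 / ε) * Real.exp (ε * (1 + l) / 6) := by
              gcongr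
              linarith
      calc (1 + l) ^ 3 ≤ ((6 / ε) * Real.exp (ε * (1 + l) / 6)) ^ 3 := by gcongr
        _ = _ := by
            rw [mul_pow, ← Real.exp_nat_mul]
            congr 2
            push_cast; ring
    have a4 : Real.exp (ε * (1 + l) / 2) * Real.exp (ε * (1 + l) / 4) ≤ Real.exp ε * L ^ ε := by
      have b1 : L ^ ε = Real.exp (ε * l) := by
        rw [Real.rpow_def_of_pos hL0, mul_comm]
      rw [b1, ← Real.exp_add, ← Real.exp_add]
      apply Real.exp_le_exp.2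
      have h6 := mul_nonneg hε.le hl0
      have h7 : ε * (1 + l) = ε + ε * l := by ring
      rw [h7]
      linarith
    have a5 : L ^ (2 - ε) * L ^ ε = L ^ 2 := by
      rw [← Real.rpow_add hL0, ← Real.rpow_natCast L 2]
      congr 1
      push_cast; ring
    calc 12 * X * (C₂ * (1 + l)) / (Real.log y) ^ 2 * ((z ^ K)⁻¹ * C₃)
        ≤ 12 * X * (C₂ * (1 + l)) / (u / 4) ^ 2 * (Real.exp (ε * (1 + l) / 4) * C₃) := by
          gcongr
      _ = 12 * 64 * (s : ℝ) ^ 2 * C₂ * C₃ * X * (1 + l) * K ^ 2 / L ^ 2 *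
            Real.exp (ε * (1 + l) / 4) := by
          rw [hu]
          field_simp
          ring
      _ ≤ 12 * 64 * (s : ℝ) ^ 2 * C₂ * C₃ * X * (1 + l) * (11 * (1 + l)) ^ 2 / L ^ 2 *
            Real.exp (ε * (1 + l) / 4) := by gcongr
      _ = 12 * 64 * 121 * (s : ℝ) ^ 2 * C₂ * C₃ * (X / L ^ 2) * ((1 + l) ^ 3 *
            Real.exp (ε * (1 + l) / 4)) := by ring
      _ ≤ 12 * 64 * 121 * (s : ℝ) ^ 2 * C₂ * C₃ * (X / L ^ 2) *
            (((6 / ε) ^ 3 * Real.exp (ε * (1 + l) / 2)) * Real.exp (ε * (1 + l) / 4)) := by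
          gcongr
      _ = 12 * 64 * 121 * (s : ℝ) ^ 2 * C₂ * C₃ * (X / L ^ 2) * ((6 / ε) ^ 3) *
            (Real.exp (ε * (1 + l) / 2) * Real.exp (ε * (1 + l) / 4)) := by ring
      _ ≤ 12 * 64 * 121 * (s : ℝ) ^ 2 * C₂ * C₃ * (X / L ^ 2) * ((6 / ε) ^ 3) *
            (Real.exp ε * L ^ ε) := by gcongr
      _ = D * (X / L ^ (2 - ε)) := by
          rw [hD, ← a5]
          have : 0 < L ^ ε := Real.rpow_pos_of_pos hL0 _
          field_simp
  have hfin : (3 * C₁ + 2 + D) * X / L ^ (2 - ε) =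
      2 * C₁ * (X / L ^ (2 - ε)) + (C₁ * (X / L ^ (2 - ε)) + (X / L ^ (2 - ε) +
        (X / L ^ (2 - ε) + D * (X / L ^ (2 - ε))))) := by ring
  rw [hfin]
  refine hmain.trans ?_
  linarith

theorem RP_le (ε : ℝ) (hε : 0 < ε) : ∃ C : ℝ, 0 < C ∧ ∀ X : ℕ, 3 ≤ X →
    ((RP X).card : ℝ) ≤ C * X / (Real.log X) ^ (2 - ε) := by
  obtain ⟨C, L₀, hC, hL₀, h⟩ := RP_large ε hε
  refine ⟨C + L₀ ^ 2, by positivity, fun X hX => ?_⟩
  have hL1 := one_lt_log hX
  have hL0 : 0 < Real.log X := by linarith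
  have hp : 0 < (Real.log X) ^ (2 - ε) := Real.rpow_pos_of_pos hL0 _
  by_cases hXL : L₀ ≤ Real.log X
  · refine (h X hX hXL).trans ?_
    gcongr
    have : 0 ≤ L₀ ^ 2 := by positivity
    linarith
  · push Not at hXL
    have h1 : ((RP X).card : ℝ) ≤ X := by exact_mod_cast RP_card_le_self X
    refine h1.trans ?_
    rw [le_div_iff₀ hp]
    have h2 : (Real.log X) ^ (2 - ε) ≤ (Real.log X) ^ 2 := by
      rw [← Real.rpow_natCast (Real.log X) 2]
      apply Real.rpow_le_rpow_of_exponent_le hL1.le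
      push_cast; linarith
    have h3 : (Real.log X) ^ 2 ≤ L₀ ^ 2 := by gcongr
    calc (X : ℝ) * (Real.log X) ^ (2 - ε) ≤ X * L₀ ^ 2 := by gcongr; exact h2.trans h3
      _ ≤ (C + L₀ ^ 2) * X := by
          have h4 : 0 ≤ C * (X : ℝ) := by positivity
          have h5 : (C + L₀ ^ 2) * X = C * X + X * L₀ ^ 2 := by ring
          rw [h5]
          linarith

end Pool.Agent.SGI
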